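import Pool.Agent.K6.H8.KS.Nice
import Pool.Agent.R847.Gap.Affine

/-!
Orbits in projective space over the integers of the algebraic closure of `ℚ_p`.
-/

set_option autoImplicit false

namespace Pool.Agent.K6.H8.KS

open MvPolynomial Pool.Agent.R847.Gap Pool.Agent.H936R2

section general

theorem eval_cong {O ι : Type} [CommRing O] {π : O} {u v : ι → O} (h : ∀ i, π ∣ u i - v i)
    (P : MvPolynomial ι O) : π ∣ eval u P - eval v P := by
  induction P using MvPolynomial.induction_on with
  | C a => simp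
  | add P Q hP hQ =>
    rw [map_add, map_add]
    have h1 : eval u P + eval u Q - (eval v P + eval v Q) =
        (eval u P - eval v P) + (eval u Q - eval v Q) := by ring
    rw [h1]
    exact dvd_add hP hQ
  | mul_X P i hP =>
    rw [map_mul, map_mul, eval_X, eval_X]
    have h1 : eval u P * u i - eval v P * v i =
        (eval u P - eval v P) * u i + eval v P * (u i - v i) := by ring
    rw [h1]
    exact dvd_add (dvd_mul_of_dvd_left hP _) (dvd_mul_of_dvd_right (h i) _)

theorem eval_scale' {O : Type} [CommRing O] {N : ℕ} {H : MvPolynomial (Fin (N + 1)) O} {d : ℕ}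
    (hH : H.IsHomogeneous d)
    (f : Fin (N + 1) → O) (c : O) : eval (fun j => c * f j) H = c ^ d * eval f H := by
  rw [eval_eq', eval_eq', Finset.mul_sum]
  refine Finset.sum_congr rfl fun α hα => ?_
  have h2 : ∑ a, α a = d := by
    have := hH (mem_support_iff.1 hα)
    rw [← this, Finsupp.weight_apply, Finsupp.sum_fintype _ _ (by simp)]
    simp
  have h3 : ∏ a, (c * f a) ^ α a = c ^ d * ∏ a, f a ^ α a := by
    rw [← h2, ← Finset.prod_pow_eq_pow_sum, ← Finset.prod_mul_distrib]
    exact Finset.prod_congr rfl fun a _ => mul_pow _ _ _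
  rw [h3]; ring

end general

variable (p : ℕ) [hp : Fact p.Prime]

/-- The coordinates of an orbit of a polynomial self-map are nice along arithmetic
progressions. -/
theorem orbit_nice {ι : Type} [Fintype ι] [DecidableEq ι]
    (F : ι → MvPolynomial ι (unitBall (PadicAlgCl p))) (a : ι → unitBall (PadicAlgCl p)) :
    ∃ k n0 : ℕ, 0 < k ∧ ∀ c, n0 ≤ c → ∀ e,
      Nice ((p : unitBall (PadicAlgCl p)) ^ 2) 0 (fun t => (pt F)^[c + k * t] a e) ∧
      ∀ t, (p : unitBall (PadicAlgCl p)) ^ 2 ∣ (pt F)^[c + k * t] a e - (pt F)^[c] a e := by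
  obtain ⟨n0, k, H, hk, hF, hH⟩ := exists_window p F a
  refine ⟨k, n0, hk, fun c hc e => ?_⟩
  set b := (pt F)^[n0] a with hb
  set π : unitBall (PadicAlgCl p) := (p : unitBall (PadicAlgCl p)) ^ 2 with hπ
  have hit : ∀ t, (pt F)^[k * t] b = fun i => b i + π * (pt H)^[t] 0 i := by
    intro t
    induction t with
    | zero => funext i; simp
    | succ t ih =>
      rw [Nat.mul_succ, Nat.add_comm, Function.iterate_add_apply, ih, hF,
        Function.iterate_succ_apply']
  obtain ⟨r, rfl⟩ : ∃ r, c = r + n0 := ⟨c - n0, by omega⟩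
  let q : MvPolynomial ι (unitBall (PadicAlgCl p)) :=
    aeval (fun i => C (b i) + C π * X i) (pullback F r (X e))
  have hkey : ∀ t, (pt F)^[r + n0 + k * t] a e =
      eval (fun i => b i + π * (pt H)^[t] 0 i) (pullback F r (X e)) := by
    intro t
    have h1 : r + n0 + k * t = r + (k * t + n0) := by ring
    rw [h1, Function.iterate_add_apply, Function.iterate_add_apply, ← hb, hit, eval_pullback,
      eval_X]
  have hkey2 : (fun t => (pt F)^[r + n0 + k * t] a e) = valSeq H 0 q := by
    funext t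
    rw [hkey, valSeq]
    simp only [q]
    rw [eval_aeval_poly]
    congr 2
    funext i
    simp
  constructor
  · rw [hkey2]
    intro k' n j h1 h2
    obtain ⟨z, hz⟩ := valSeq_diff_dvd π H hH 0 q k' n j h1 (by omega)
    exact ⟨z, hz⟩
  · intro t
    have h1 := hkey 0
    rw [Nat.mul_zero, Nat.add_zero] at h1
    rw [hkey, h1]
    refine eval_cong (fun i => ?_) _
    exact ⟨(pt H)^[t] 0 i - (pt H)^[0] 0 i, by ring⟩

section proj

variable {p} {N : ℕ}

/-- some coordinate is a unit -/
def Unim (v : Fin (N + 1) → unitBall (PadicAlgCl p)) : Prop := ∃ a, IsUnit (v a)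

/-- the residues are proportional -/
def RP (v w : Fin (N + 1) → unitBall (PadicAlgCl p)) : Prop :=
  ∀ a b, res (PadicAlgCl p) (v a) * res (PadicAlgCl p) (w b) =
    res (PadicAlgCl p) (v b) * res (PadicAlgCl p) (w a)

/-- the vectors are proportional -/
def PP (v w : Fin (N + 1) → unitBall (PadicAlgCl p)) : Prop :=
  ∀ a b, v a * w b = v b * w a

variable {v w u : Fin (N + 1) → unitBall (PadicAlgCl p)}

theorem PP.rp (h : PP v w) : RP v w := by
  intro a b
  rw [← map_mul, h a b, map_mul]

theorem RP.symm (h : RP v w) : RP w v := by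
  intro a b
  rw [mul_comm, h b a, mul_comm]

theorem unim_iff : Unim v ↔ ∃ a, res (PadicAlgCl p) (v a) ≠ 0 := by
  constructor
  · rintro ⟨a, ha⟩
    exact ⟨a, (ha.map (res (PadicAlgCl p))).ne_zero⟩
  · rintro ⟨a, ha⟩
    exact ⟨a, isUnit_of_res_ne_zero _ ha⟩

theorem RP.exists_scale (h : RP v w) (hv : Unim v) (hw : Unim w) :
    ∃ c : ResF (PadicAlgCl p), c ≠ 0 ∧
      ∀ a, res (PadicAlgCl p) (w a) = c * res (PadicAlgCl p) (v a) := by
  obtain ⟨b, hb⟩ := unim_iff.1 hw
  obtain ⟨a, ha⟩ := unim_iff.1 hv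
  have hvb : res (PadicAlgCl p) (v b) ≠ 0 := by
    intro h0
    have h1 := h a b
    rw [h0, zero_mul] at h1
    exact (mul_ne_zero ha hb) h1
  refine ⟨res (PadicAlgCl p) (w b) / res (PadicAlgCl p) (v b), div_ne_zero hb hvb, fun c => ?_⟩
  have h1 := h c b
  field_simp
  rw [mul_comm, ← h1, mul_comm]

theorem RP.trans (h : RP v w) (h' : RP w u) (hv : Unim v) (hw : Unim w) (hu : Unim u) :
    RP v u := by
  obtain ⟨c, _, hc⟩ := h.exists_scale hv hw
  obtain ⟨c', _, hc'⟩ := h'.exists_scale hw hu
  intro a b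
  rw [hc', hc', hc, hc]
  ring

theorem PP.exists_scale (h : PP v w) (hv : Unim v) (hw : Unim w) :
    ∃ c : unitBall (PadicAlgCl p), IsUnit c ∧ ∀ a, w a = c * v a := by
  obtain ⟨c, hc0, hc⟩ := h.rp.exists_scale hv hw
  obtain ⟨b, hb⟩ := hv
  obtain ⟨b', hb'⟩ := hb.exists_right_inv
  refine ⟨w b * b', ?_, fun a => ?_⟩
  · apply isUnit_of_res_ne_zero
    rw [map_mul, hc]
    refine mul_ne_zero (mul_ne_zero hc0 (hb.map (res (PadicAlgCl p))).ne_zero) ?_
    have h1 : IsUnit b' := IsUnit.of_mul_eq_one (v b) (by rw [mul_comm]; exact hb')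
    exact (h1.map (res (PadicAlgCl p))).ne_zero
  · have h1 := h a b
    linear_combination (-(w a)) * hb' - b' * h1

/-- the values of a family of polynomials -/
noncomputable def ev (G : Fin (N + 1) → MvPolynomial (Fin (N + 1)) (unitBall (PadicAlgCl p)))
    (v : Fin (N + 1) → unitBall (PadicAlgCl p)) : Fin (N + 1) → unitBall (PadicAlgCl p) :=
  fun a => eval v (G a)

theorem res_eval (P : MvPolynomial (Fin (N + 1)) (unitBall (PadicAlgCl p))) :
    res (PadicAlgCl p) (eval v P) =
      eval (fun a => res (PadicAlgCl p) (v a)) (map (res (PadicAlgCl p)) P) := by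
  rw [eval_map]
  have h := eval₂_comp_left (res (PadicAlgCl p)) (RingHom.id _) v P
  rw [RingHom.comp_id] at h
  exact h

variable {M : ℕ} {G : Fin (M + 1) → MvPolynomial (Fin (N + 1)) (unitBall (PadicAlgCl p))} {d : ℕ}

/-- A chart which is defined at a point is defined at all points of the residue class, and maps
it to one residue class. -/
theorem chart_transfer (hG : ∀ a, (G a).IsHomogeneous d) (hv : Unim v) (hw : Unim w) (h : RP v w)
    (h0 : Unim fun a => eval v (G a)) :
    Unim (fun a => eval w (G a)) ∧ RP (fun a => eval v (G a)) (fun a => eval w (G a)) := by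
  obtain ⟨c, hc0, hc⟩ := h.exists_scale hv hw
  have h1 : ∀ a, res (PadicAlgCl p) (eval w (G a)) = c ^ d * res (PadicAlgCl p) (eval v (G a)) := by
    intro a
    rw [res_eval, res_eval, ← eval_scale' ((hG a).map _)]
    congr 2
    funext b
    exact hc b
  constructor
  · rw [unim_iff] at h0 ⊢
    obtain ⟨a, ha⟩ := h0
    refine ⟨a, ?_⟩
    rw [h1]
    exact mul_ne_zero (pow_ne_zero _ hc0) ha
  · intro a b
    rw [h1, h1]
    ring

theorem exact_transfer (hG : ∀ a, (G a).IsHomogeneous d) (hv : Unim v) (hw : Unim w)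
    (h : PP v w) : ∃ c : unitBall (PadicAlgCl p), IsUnit c ∧ ∀ a, eval w (G a) = c * eval v (G a) := by
  obtain ⟨c, hc0, hc⟩ := h.exists_scale hv hw
  refine ⟨c ^ d, hc0.pow d, fun a => ?_⟩
  have h1 : w = fun j => c * v j := funext hc
  rw [← eval_scale' (hG a), h1]

end proj

section dyn

variable {p} {N : ℕ}

/-- **The orbit in projective space.** -/
theorem dyn {r : ℕ} (G : Fin r → Fin (N + 1) → MvPolynomial (Fin (N + 1)) (unitBall (PadicAlgCl p)))
    (d : Fin r → ℕ) (hG : ∀ i a, (G i a).IsHomogeneous (d i))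
    (y : ℕ → Fin (N + 1) → unitBall (PadicAlgCl p)) (hy : ∀ n, Unim (y n))
    (L : Submodule ℚ_[p] (PadicAlgCl p)) [FiniteDimensional ℚ_[p] L]
    (hL : ∀ n a, ((y n a : unitBall (PadicAlgCl p)) : PadicAlgCl p) ∈ L)
    (hrel : ∀ n i, PP (fun a => eval (y n) (G i a)) (y (n + 1)))
    (hcov : ∀ n, ∃ i, Unim fun a => eval (y n) (G i a)) :
    ∃ (κ n1 : ℕ) (z : ℕ → Fin (N + 1) → unitBall (PadicAlgCl p)), 0 < κ ∧
      (∀ n, n1 ≤ n → Unim (z n) ∧ PP (y n) (z n)) ∧
      ∀ c, n1 ≤ c → ∀ a,
        Nice ((p : unitBall (PadicAlgCl p)) ^ 2) 0 (fun t => z (c + κ * t) a) ∧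
        ∀ t, (p : unitBall (PadicAlgCl p)) ^ 2 ∣ z (c + κ * t) a - z c a := by
  classical
  obtain ⟨n0, m0, hnm, hclose⟩ := compact_pair p L
    (fun n a => ((y n a : unitBall (PadicAlgCl p)) : PadicAlgCl p)) hL
    (fun n a => unitBall_norm_le _) 1 one_pos
  obtain ⟨k, rfl⟩ : ∃ k, m0 = n0 + k := ⟨m0 - n0, by omega⟩
  have hk : 0 < k := by omega
  -- the residues are periodic
  have hper0 : RP (y n0) (y (n0 + k)) := by
    have h1 : ∀ a, res (PadicAlgCl p) (y (n0 + k) a) = res (PadicAlgCl p) (y n0 a) := by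
      intro a
      rw [← sub_eq_zero, ← map_sub, res_eq_zero_iff]
      exact hclose a
    intro a b
    rw [h1, h1]
    ring
  have hstep : ∀ n m, RP (y n) (y m) → RP (y (n + 1)) (y (m + 1)) := by
    intro n m h
    obtain ⟨i, hi⟩ := hcov n
    obtain ⟨e1, e2⟩ := chart_transfer (hG i) (hy n) (hy m) h hi
    have h1 := (hrel n i).rp
    have h2 := (hrel m i).rp
    exact (h1.symm.trans e2 (hy _) hi e1).trans h2 (hy _) e1 (hy _)
  have hper : ∀ s, RP (y (n0 + s)) (y (n0 + s + k)) := by
    intro s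
    induction s with
    | zero => simpa using hper0
    | succ s ih =>
      have h1 := hstep _ _ ih
      have e1 : n0 + s + k + 1 = n0 + (s + 1) + k := by ring
      rw [e1] at h1
      exact h1
  have hper2 : ∀ s l, RP (y (n0 + s)) (y (n0 + s + k * l)) := by
    intro s l
    induction l with
    | zero =>
      rw [Nat.mul_zero, Nat.add_zero]
      intro a b
      ring
    | succ l ih =>
      have h1 := hper (s + k * l)
      have e1 : n0 + (s + k * l) = n0 + s + k * l := by ring
      have e2 : n0 + s + k * l + k = n0 + s + k * (l + 1) := by ring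
      rw [e1, e2] at h1
      exact ih.trans h1 (hy _) (hy _) (hy _)
  -- the charts
  have : NeZero k := ⟨hk.ne'⟩
  choose ch hch using fun s : ℕ => hcov (n0 + s)
  let I : ZMod k → Fin r := fun τ => ch τ.val
  have hI : ∀ s : ℕ, Unim fun a => eval (y (n0 + s)) (G (I (s : ZMod k)) a) := by
    intro s
    have h1 : ((s : ZMod k)).val = s % k := ZMod.val_natCast k s
    have h2 := hper2 (s % k) (s / k)
    have h3 : n0 + s % k + k * (s / k) = n0 + s := by
      have := Nat.mod_add_div s k
      omega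
    rw [h3] at h2
    have h4 := (chart_transfer (hG (ch (s % k))) (hy _) (hy _) h2 (hch (s % k))).1
    simp only [I]
    rw [h1]
    exact h4
  -- the polynomial self-map
  let F : (ZMod k × Fin (N + 1)) → MvPolynomial (ZMod k × Fin (N + 1)) (unitBall (PadicAlgCl p)) :=
    fun e => rename (fun a => (e.1 - 1, a)) (G (I (e.1 - 1)) e.2)
  let A0 : ZMod k × Fin (N + 1) → unitBall (PadicAlgCl p) := fun e => y n0 e.2
  have hF : ∀ (u : ZMod k × Fin (N + 1) → unitBall (PadicAlgCl p)) (τ : ZMod k) (a : Fin (N + 1)),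
      pt F u (τ + 1, a) = eval (fun b => u (τ, b)) (G (I τ) a) := by
    intro u τ a
    simp only [pt, F]
    rw [eval_rename]
    have e1 : τ + 1 - 1 = τ := by ring
    rw [e1]
    rfl
  let Z : ℕ → Fin (N + 1) → unitBall (PadicAlgCl p) := fun s a => (pt F)^[s] A0 ((s : ZMod k), a)
  have hZ0 : Z 0 = y n0 := by
    funext a
    rfl
  have hZs : ∀ s, Z (s + 1) = fun a => eval (Z s) (G (I (s : ZMod k)) a) := by
    intro s
    funext a
    simp only [Z]
    rw [Function.iterate_succ_apply']
    have e1 : ((s + 1 : ℕ) : ZMod k) = (s : ZMod k) + 1 := by push_cast; rfl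
    rw [e1, hF]
  have hZ : ∀ s, Unim (Z s) ∧ PP (y (n0 + s)) (Z s) := by
    intro s
    induction s with
    | zero =>
      rw [hZ0]
      refine ⟨hy _, fun a b => ?_⟩
      rw [Nat.add_zero]
      ring
    | succ s ih =>
      obtain ⟨c, hc, hc2⟩ := exact_transfer (hG (I (s : ZMod k))) (hy _) ih.1 ih.2
      have h1 : ∀ a, Z (s + 1) a = c * eval (y (n0 + s)) (G (I (s : ZMod k)) a) := by
        intro a
        rw [hZs]
        exact hc2 a
      constructor
      · obtain ⟨a, ha⟩ := hI s
        refine ⟨a, ?_⟩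
        rw [h1]
        exact hc.mul ha
      · intro a b
        rw [h1, h1]
        have h2 := hrel (n0 + s) (I (s : ZMod k)) a b
        have e1 : n0 + s + 1 = n0 + (s + 1) := by ring
        rw [e1] at h2
        linear_combination (-c) * h2
  obtain ⟨k', n', hk', hnice⟩ := orbit_nice p F A0
  refine ⟨k * k', n0 + n', fun n => Z (n - n0), Nat.mul_pos hk hk', fun n hn => ?_,
    fun c hc a => ?_⟩
  · have h1 := hZ (n - n0)
    have e1 : n0 + (n - n0) = n := by omega
    rw [e1] at h1
    exact h1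
  · obtain ⟨s, rfl⟩ : ∃ s, c = n0 + s := ⟨c - n0, by omega⟩
    have h1 : ∀ t, Z (n0 + s + k * k' * t - n0) a = (pt F)^[s + k' * (k * t)] A0 ((s : ZMod k), a) := by
      intro t
      have e1 : n0 + s + k * k' * t - n0 = s + k' * (k * t) := by
        have : k * k' * t = k' * (k * t) := by ring
        omega
      rw [e1]
      simp only [Z]
      have e2 : ((s + k' * (k * t) : ℕ) : ZMod k) = (s : ZMod k) := by
        push_cast
        rw [ZMod.natCast_self]
        ring
      rw [e2]
    have h2 : Z (n0 + s - n0) a = (pt F)^[s] A0 ((s : ZMod k), a) := by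
      have e1 : n0 + s - n0 = s := by omega
      rw [e1]
    obtain ⟨g1, g2⟩ := hnice s (by omega) ((s : ZMod k), a)
    constructor
    · have h3 : (fun t => Z (n0 + s + k * k' * t - n0) a) =
          fun t => (fun t => (pt F)^[s + k' * t] A0 ((s : ZMod k), a)) (0 + k * t) := by
        funext t
        rw [h1]
        simp only [zero_add]
      change Nice _ 0 (fun t => Z (n0 + s + k * k' * t - n0) a)
      rw [h3]
      exact g1.affine hk 0
    · intro t
      change _ ∣ Z (n0 + s + k * k' * t - n0) a - Z (n0 + s - n0) a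
      rw [h1, h2]
      exact g2 (k * t)

end dyn

end Pool.Agent.K6.H8.KS
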