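import Pool.Agent.K6.H8.KS.Crit
import Pool.Agent.K6.H8.KS.Dyn

/-!
Orbits of endomorphisms of projective varieties over a number field: the coordinates of the points,
suitably normalised, are analytic in the time at a suitable prime.
-/

set_option autoImplicit false

namespace Pool.Agent.K6.H8.KS

open MvPolynomial Pool.Agent.R847.Gap Pool.Agent.H936R2

theorem nice_eval {O : Type} [CommRing O] {π : O} {N : ℕ} {z : ℕ → Fin (N + 1) → O}
    (hz : ∀ a, Nice π 0 (fun t => z t a)) (P : MvPolynomial (Fin (N + 1)) O) :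
    Nice π 0 (fun t => eval (z t) P) := by
  induction P using MvPolynomial.induction_on with
  | C a =>
    simp only [eval_C]
    exact nice_const a
  | add P Q hP hQ =>
    simp only [map_add]
    exact hP.add hQ
  | mul_X P i hP =>
    simp only [map_mul, eval_X]
    exact hP.mul' (hz i)

section cert

variable {K : Type} [Field K] {N M : ℕ} {r : ℕ}

/-- Hilbert's theorem on the zeros. -/
theorem certificate {I : Ideal (MvPolynomial (Fin (N + 1)) K)}
    {G : Fin r → Fin (M + 1) → MvPolynomial (Fin (N + 1)) K}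
    (hG : ∀ y : Fin (N + 1) → AlgebraicClosure K, y ≠ 0 → (∀ H ∈ I, aeval y H = 0) →
      ∃ i a, aeval y (G i a) ≠ 0) (j : Fin (N + 1)) :
    ∃ (m : ℕ) (A : Fin r × Fin (M + 1) → MvPolynomial (Fin (N + 1)) K)
      (R : MvPolynomial (Fin (N + 1)) K), R ∈ I ∧ X j ^ m = R + ∑ q, A q * G q.1 q.2 := by
  classical
  set J : Ideal (MvPolynomial (Fin (N + 1)) K) :=
    I ⊔ Ideal.span (Set.range fun q : Fin r × Fin (M + 1) => G q.1 q.2) with hJ
  have h1 : X j ∈ vanishingIdeal K (zeroLocus (AlgebraicClosure K) J) := by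
    rw [mem_vanishingIdeal_iff]
    intro y hy
    rw [mem_zeroLocus_iff] at hy
    by_cases hy0 : y = 0
    · rw [aeval_X, hy0]
      rfl
    · exfalso
      obtain ⟨i, a, hia⟩ := hG y hy0 fun H hH => hy H (Ideal.mem_sup_left hH)
      exact hia (hy _ (Ideal.mem_sup_right (Ideal.subset_span ⟨(i, a), rfl⟩)))
  rw [vanishingIdeal_zeroLocus_eq_radical] at h1
  obtain ⟨m, hm⟩ := h1
  obtain ⟨R, hR, S, hS, hRS⟩ := Submodule.mem_sup.1 hm
  obtain ⟨A, hA⟩ := Ideal.mem_span_range_iff_exists_fun.1 hS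
  exact ⟨m, A, R, hR, by rw [← hRS, ← hA]⟩

/-- scaled points -/
theorem eval_scaled {I : Ideal (MvPolynomial (Fin (N + 1)) K)}
    (hI : ∀ H ∈ I, ∀ e, homogeneousComponent e H ∈ I) {x : Fin (N + 1) → K}
    (hx : ∀ H ∈ I, eval x H = 0) (c : K) {H : MvPolynomial (Fin (N + 1)) K} (hH : H ∈ I) :
    eval (fun j => c * x j) H = 0 := by
  rw [← sum_homogeneousComponent H, map_sum]
  refine Finset.sum_eq_zero fun e _ => ?_
  rw [eval_scale' (homogeneousComponent_isHomogeneous e H), hx _ (hI H hH e), mul_zero]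

end cert

section lift

variable {K : Type} [Field K] {N : ℕ} {p : ℕ} [Fact p.Prime] (σ : K →+* PadicAlgCl p)

/-- The polynomial `Q` is a lift of `P`. -/
def Lifts (P : MvPolynomial (Fin (N + 1)) K)
    (Q : MvPolynomial (Fin (N + 1)) (unitBall (PadicAlgCl p))) : Prop :=
  map (unitBall (PadicAlgCl p)).subtype Q = map σ P

variable {σ} {P : MvPolynomial (Fin (N + 1)) K}
  {Q : MvPolynomial (Fin (N + 1)) (unitBall (PadicAlgCl p))}

theorem Lifts.hom (h : Lifts σ P Q) {d : ℕ} (hP : P.IsHomogeneous d) : Q.IsHomogeneous d := by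
  have h1 := hP.map σ
  rw [Lifts] at h
  rw [← h] at h1
  exact h1.of_map Subtype.val_injective

theorem Lifts.eval (h : Lifts σ P Q) {y : Fin (N + 1) → unitBall (PadicAlgCl p)}
    {v : Fin (N + 1) → K} (hy : ∀ a, ((y a : unitBall (PadicAlgCl p)) : PadicAlgCl p) = σ (v a)) :
    ((MvPolynomial.eval y Q : unitBall (PadicAlgCl p)) : PadicAlgCl p) =
      σ (MvPolynomial.eval v P) := by
  rw [eval_coe, show map (unitBall (PadicAlgCl p)).subtype Q = map σ P from h, eval_map]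
  have h1 := eval₂_comp_left σ (RingHom.id _) v P
  rw [RingHom.comp_id] at h1
  have h2 : (fun i => ((y i : unitBall (PadicAlgCl p)) : PadicAlgCl p)) = σ ∘ v := funext hy
  rw [h2]
  exact h1.symm

theorem exists_lifts (h : ∀ α, ‖σ (P.coeff α)‖ ≤ 1) : ∃ Q, Lifts σ P Q := by
  obtain ⟨Q, hQ⟩ := exists_lift (K := PadicAlgCl p) (map σ P) (fun α => by rw [coeff_map]; exact h α)
  exact ⟨Q, hQ⟩

end lift

/-- a prime for finitely many polynomials -/
theorem exists_prime {K : Type} [Field K] [NumberField K] {N : ℕ} {ι : Type} [Finite ι]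
    (P : ι → MvPolynomial (Fin (N + 1)) K) :
    ∃ (p : ℕ) (_ : Fact p.Prime) (_ : 3 ≤ p) (σ : K →+* PadicAlgCl p)
      (Q : ι → MvPolynomial (Fin (N + 1)) (unitBall (PadicAlgCl p))), ∀ i, Lifts σ (P i) (Q i) := by
  classical
  obtain ⟨ρ⟩ : Nonempty (K →+* ℂ) := inferInstance
  let s : Set ℂ := ⋃ i, (fun α => ρ ((P i).coeff α)) '' ((P i).support : Set (Fin (N + 1) →₀ ℕ))
  have hs : s.Finite := Set.finite_iUnion fun i => ((P i).support.finite_toSet).image _
  obtain ⟨N₀, hN₀⟩ := emb_finite hs.toFinset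
  obtain ⟨p, hpN, hp⟩ := Nat.exists_infinite_primes (N₀ + 3)
  have : Fact p.Prime := ⟨hp⟩
  obtain ⟨τ, hτ⟩ := hN₀ p (by omega)
  let σ : K →+* PadicAlgCl p := (τ : ℂ →+* PadicAlgCl p).comp ρ
  have hσ : ∀ i α, ‖σ ((P i).coeff α)‖ ≤ 1 := by
    intro i α
    by_cases h : α ∈ (P i).support
    · refine hτ _ (hs.mem_toFinset.2 ?_)
      rw [Set.mem_iUnion]
      exact ⟨i, α, h, rfl⟩
    · rw [notMem_support_iff.1 h, map_zero, norm_zero]
      exact zero_le_one
  choose Q hQ using fun i => exists_lifts (σ := σ) (hσ i)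
  exact ⟨p, this, by omega, σ, Q, hQ⟩

theorem unit_of_cong {p : ℕ} [Fact p.Prime] {u v : unitBall (PadicAlgCl p)} (hu : IsUnit u)
    (h : (p : unitBall (PadicAlgCl p)) ^ 2 ∣ u - v) : IsUnit v := by
  apply isUnit_of_res_ne_zero
  obtain ⟨w, hw⟩ := h
  have h1 : v = u - (p : unitBall (PadicAlgCl p)) ^ 2 * w := by rw [← hw]; ring
  have h2 : res (PadicAlgCl p) ((p : unitBall (PadicAlgCl p)) ^ 2) = 0 := by
    rw [res_eq_zero_iff]
    push_cast
    rw [norm_pow]
    exact pow_lt_one₀ (norm_nonneg _) (norm_p_lt_one p) (by norm_num)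
  rw [h1, map_sub, map_mul, h2, zero_mul, sub_zero]
  exact (hu.map _).ne_zero

/-- **The bridge.** -/
theorem bridge {K : Type} [Field K] [NumberField K] {N M : ℕ}
    {I : Ideal (MvPolynomial (Fin (N + 1)) K)} (hI : ∀ H ∈ I, ∀ e, homogeneousComponent e H ∈ I)
    {r : ℕ} {G : Fin r → Fin (N + 1) → MvPolynomial (Fin (N + 1)) K} {d : Fin r → ℕ}
    (hG : ∀ i a, (G i a).IsHomogeneous (d i))
    (hGc : ∀ y : Fin (N + 1) → AlgebraicClosure K, y ≠ 0 → (∀ H ∈ I, aeval y H = 0) →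
      ∃ i a, aeval y (G i a) ≠ 0)
    {s : ℕ} {φ : Fin s → Fin (M + 1) → MvPolynomial (Fin (N + 1)) K} {e : Fin s → ℕ}
    (hφ : ∀ i a, (φ i a).IsHomogeneous (e i))
    (hφc : ∀ y : Fin (N + 1) → AlgebraicClosure K, y ≠ 0 → (∀ H ∈ I, aeval y H = 0) →
      ∃ i a, aeval y (φ i a) ≠ 0)
    {x : ℕ → Fin (N + 1) → K} (hx0 : ∀ n, x n ≠ 0) (hxI : ∀ n, ∀ H ∈ I, eval (x n) H = 0)
    (horb : ∀ n i a b, eval (x n) (G i a) * x (n + 1) b = eval (x n) (G i b) * x (n + 1) a)
    {Y : ℕ → Fin (M + 1) → K} (hY0 : ∀ n, Y n ≠ 0)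
    (hY : ∀ n i a b, eval (x n) (φ i a) * Y n b = eval (x n) (φ i b) * Y n a) :
    ∃ (p : ℕ) (_ : Fact p.Prime) (_ : 3 ≤ p) (σ : K →+* PadicAlgCl p) (κ n1 : ℕ)
      (b : ℕ → Fin (M + 1)), 0 < κ ∧ (∀ n, Y n (b n) ≠ 0) ∧ ∀ a, ANice p σ κ n1 fun n => Y n a / Y n (b n) := by
  classical
  choose m A R hR hcert using fun j => certificate hGc j
  choose m' A' R' hR' hcert' using fun j => certificate hφc j
  -- the prime
  obtain ⟨p, hp, hp3, σ, Q, hQ⟩ := exists_prime (K := K) (N := N)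
    (ι := (Fin r × Fin (N + 1)) ⊕ (Fin s × Fin (M + 1)) ⊕
      (Fin (N + 1) × Fin r × Fin (N + 1)) ⊕ (Fin (N + 1) × Fin s × Fin (M + 1)))
    (Sum.elim (fun q => G q.1 q.2) (Sum.elim (fun q => φ q.1 q.2)
      (Sum.elim (fun q => A q.1 q.2) (fun q => A' q.1 q.2))))
  set G' : Fin r → Fin (N + 1) → MvPolynomial (Fin (N + 1)) (unitBall (PadicAlgCl p)) :=
    fun i a => Q (Sum.inl (i, a)) with hG'
  set φ' : Fin s → Fin (M + 1) → MvPolynomial (Fin (N + 1)) (unitBall (PadicAlgCl p)) :=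
    fun i a => Q (Sum.inr (Sum.inl (i, a))) with hφ'
  have hGl : ∀ i a, Lifts σ (G i a) (G' i a) := fun i a => hQ (Sum.inl (i, a))
  have hφl : ∀ i a, Lifts σ (φ i a) (φ' i a) := fun i a => hQ (Sum.inr (Sum.inl (i, a)))
  have hAl : ∀ j q, Lifts σ (A j q) (Q (Sum.inr (Sum.inr (Sum.inl (j, q))))) :=
    fun j q => hQ (Sum.inr (Sum.inr (Sum.inl (j, q))))
  have hAl' : ∀ j q, Lifts σ (A' j q) (Q (Sum.inr (Sum.inr (Sum.inr (j, q))))) :=
    fun j q => hQ (Sum.inr (Sum.inr (Sum.inr (j, q))))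
  -- normalised points
  have hmax : ∀ n, ∃ j, x n j ≠ 0 ∧ ∀ a, ‖σ (x n a / x n j)‖ ≤ 1 := by
    intro n
    obtain ⟨j, -, hj⟩ := Finset.exists_max_image (Finset.univ : Finset (Fin (N + 1)))
      (fun a => ‖σ (x n a)‖) Finset.univ_nonempty
    obtain ⟨a0, ha0⟩ := Function.ne_iff.1 (hx0 n)
    have h1 : 0 < ‖σ (x n j)‖ := by
      refine lt_of_lt_of_le ?_ (hj a0 (Finset.mem_univ _))
      exact norm_pos_iff.2 ((map_ne_zero σ).2 ha0)
    refine ⟨j, fun h0 => ?_, fun a => ?_⟩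
    · rw [h0, map_zero, norm_zero] at h1
      exact lt_irrefl _ h1
    · rw [map_div₀, norm_div, div_le_one h1]
      exact hj a (Finset.mem_univ _)
  choose J hJ0 hJ1 using hmax
  let v : ℕ → Fin (N + 1) → K := fun n a => (x n (J n))⁻¹ * x n a
  have hv : ∀ n a, v n a = x n a / x n (J n) := fun n a => by simp only [v]; ring
  let y : ℕ → Fin (N + 1) → unitBall (PadicAlgCl p) := fun n a =>
    ⟨σ (v n a), by rw [hv]; exact hJ1 n a⟩
  have hy : ∀ n a, ((y n a : unitBall (PadicAlgCl p)) : PadicAlgCl p) = σ (v n a) :=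
    fun n a => rfl
  have hy1 : ∀ n, y n (J n) = 1 := by
    intro n
    apply Subtype.ext
    rw [hy, hv, div_self (hJ0 n)]
    simp
  have hyU : ∀ n, Unim (y n) := fun n => ⟨J n, by rw [hy1]; exact isUnit_one⟩
  have hvI : ∀ n, ∀ H ∈ I, eval (v n) H = 0 := fun n H hH => eval_scaled hI (hxI n) _ hH
  have hunit : ∀ (s' M' : ℕ) (B : Fin s' → Fin (M' + 1) → MvPolynomial (Fin (N + 1)) K)
      (B' : Fin s' → Fin (M' + 1) → MvPolynomial (Fin (N + 1)) (unitBall (PadicAlgCl p)))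
      (hB : ∀ i a, Lifts σ (B i a) (B' i a)) (m' : ℕ) (j : Fin (N + 1))
      (A : Fin s' × Fin (M' + 1) → MvPolynomial (Fin (N + 1)) K)
      (Ã : Fin s' × Fin (M' + 1) → MvPolynomial (Fin (N + 1)) (unitBall (PadicAlgCl p)))
      (hA : ∀ q, Lifts σ (A q) (Ã q)) (R : MvPolynomial (Fin (N + 1)) K) (hR : R ∈ I)
      (hc : X j ^ m' = R + ∑ q, A q * B q.1 q.2) (n : ℕ) (hj : j = J n),
      ∃ i, Unim fun a => eval (y n) (B' i a) := by
    intro s' M' B B' hB m' j A Ã hA R hR hc n hj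
    by_contra hcon
    push Not at hcon
    have h1 : ∀ i a, res (PadicAlgCl p) (eval (y n) (B' i a)) = 0 := by
      intro i a
      by_contra hne
      exact hcon i (unim_iff.2 ⟨a, hne⟩)
    have h2 := congrArg (fun P => σ (eval (v n) P)) hc
    simp only [map_pow, map_add, map_sum, map_mul, eval_X, hvI n R hR, zero_add] at h2
    have h3 : v n j = 1 := by rw [hv, hj, div_self (hJ0 n)]
    rw [h3, map_one, one_pow] at h2
    have h4 : (1 : unitBall (PadicAlgCl p)) = ∑ q, eval (y n) (Ã q) * eval (y n) (B' q.1 q.2) := by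
      apply Subtype.ext
      push_cast
      rw [h2]
      refine Finset.sum_congr rfl fun q _ => ?_
      rw [(hA q).eval (hy n), (hB q.1 q.2).eval (hy n)]
    have h5 := congrArg (res (PadicAlgCl p)) h4
    rw [map_one, map_sum] at h5
    have h6 : ∀ q ∈ (Finset.univ : Finset (Fin s' × Fin (M' + 1))),
        res (PadicAlgCl p) (eval (y n) (Ã q) * eval (y n) (B' q.1 q.2)) = 0 := by
      intro q _
      rw [map_mul, h1, mul_zero]
    rw [Finset.sum_eq_zero h6] at h5
    exact one_ne_zero h5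
  have hcovG : ∀ n, ∃ i, Unim fun a => eval (y n) (G' i a) := fun n =>
    hunit r N G G' hGl (m (J n)) (J n) (A (J n)) _ (hAl (J n)) (R (J n)) (hR _) (hcert _) n rfl
  have hcovφ : ∀ n, ∃ i, Unim fun a => eval (y n) (φ' i a) := fun n =>
    hunit s M φ φ' hφl (m' (J n)) (J n) (A' (J n)) _ (hAl' (J n)) (R' (J n)) (hR' _) (hcert' _) n rfl
  -- the space
  let bas := Module.finBasis ℚ K
  let L : Submodule ℚ_[p] (PadicAlgCl p) := Submodule.span ℚ_[p] (Set.range fun i => σ (bas i))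
  have hLfd : FiniteDimensional ℚ_[p] L := FiniteDimensional.span_of_finite _ (Set.finite_range _)
  have hL : ∀ n a, ((y n a : unitBall (PadicAlgCl p)) : PadicAlgCl p) ∈ L := by
    intro n a
    rw [hy, ← bas.sum_repr (v n a), map_sum]
    refine Submodule.sum_mem _ fun i _ => ?_
    have h1 : σ ((bas.repr (v n a)) i • bas i) =
        (((bas.repr (v n a)) i : ℚ) : ℚ_[p]) • σ (bas i) := by
      rw [Algebra.smul_def, Algebra.smul_def, map_mul]
      congr 1
      rw [eq_ratCast, map_ratCast, map_ratCast]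
    rw [h1]
    exact Submodule.smul_mem _ _ (Submodule.subset_span ⟨i, rfl⟩)
  have hvG : ∀ n (P : MvPolynomial (Fin (N + 1)) K) d', P.IsHomogeneous d' →
      eval (v n) P = ((x n (J n))⁻¹) ^ d' * eval (x n) P := fun n P d' hP => eval_scale' hP _ _
  have hrel : ∀ n i, PP (fun a => eval (y n) (G' i a)) (y (n + 1)) := by
    intro n i a b
    apply Subtype.ext
    push_cast
    rw [(hGl i a).eval (hy n), (hGl i b).eval (hy n), hy, hy, ← map_mul, ← map_mul,
      hvG n _ _ (hG i a), hvG n _ _ (hG i b)]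
    congr 1
    simp only [v]
    linear_combination ((x n (J n))⁻¹ ^ d i * (x (n + 1) (J (n + 1)))⁻¹) * horb n i a b
  obtain ⟨κ, n1, z, hκ, hz1, hz2⟩ := dyn G' d (fun i a => (hGl i a).hom (hG i a)) y hyU L hL hrel
    hcovG
  -- the charts of the second map
  have hcovz : ∀ n, n1 ≤ n → ∃ (i : Fin s) (b : Fin (M + 1)), IsUnit (eval (z n) (φ' i b)) := by
    intro n hn
    obtain ⟨i, hi⟩ := hcovφ n
    obtain ⟨⟨b, hb⟩, -⟩ := chart_transfer (fun a => (hφl i a).hom (hφ i a)) (hyU n) (hz1 n hn).1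
      (hz1 n hn).2.rp hi
    exact ⟨i, b, hb⟩
  have : Nonempty (Fin s) := ⟨(hcovφ 0).choose⟩
  choose! ci cb hcb using hcovz
  let rep : ℕ → ℕ := fun n => n1 + (n - n1) % κ
  have hrep1 : ∀ n, n1 ≤ rep n := fun n => Nat.le_add_right _ _
  have hrep2 : ∀ n, n1 ≤ n → n = rep n + κ * ((n - n1) / κ) := by
    intro n hn
    have := Nat.mod_add_div (n - n1) κ
    simp only [rep]
    omega
  have hrep3 : ∀ c, n1 ≤ c → ∀ t, rep (c + κ * t) = rep c := by
    intro c hc t
    simp only [rep]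
    have h1 : c + κ * t - n1 = (c - n1) + κ * t := by omega
    rw [h1, Nat.add_mul_mod_self_left]
  have hunit2 : ∀ n, n1 ≤ n → IsUnit (eval (z n) (φ' (ci (rep n)) (cb (rep n)))) := by
    intro n hn
    have h1 := hcb (rep n) (hrep1 n)
    refine unit_of_cong h1 ?_
    have h2 : (p : unitBall (PadicAlgCl p)) ^ 2 ∣ eval (z n) (φ' (ci (rep n)) (cb (rep n))) -
        eval (z (rep n)) (φ' (ci (rep n)) (cb (rep n))) := by
      refine eval_cong (fun a => ?_) _
      have h3 := (hz2 (rep n) (hrep1 n) a).2 ((n - n1) / κ)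
      rwa [← hrep2 n hn] at h3
    have h4 := dvd_neg.2 h2
    rwa [neg_sub] at h4
  -- the relation between the two systems of coordinates
  have hzY : ∀ n, n1 ≤ n → ∀ i a b,
      ((eval (z n) (φ' i a) : unitBall (PadicAlgCl p)) : PadicAlgCl p) * σ (Y n b) =
      ((eval (z n) (φ' i b) : unitBall (PadicAlgCl p)) : PadicAlgCl p) * σ (Y n a) := by
    intro n hn i a b
    obtain ⟨c, -, hc⟩ := exact_transfer (fun a => (hφl i a).hom (hφ i a)) (hyU n) (hz1 n hn).1
      (hz1 n hn).2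
    rw [hc, hc]
    push_cast
    rw [(hφl i a).eval (hy n), (hφl i b).eval (hy n), hvG n _ _ (hφ i a), hvG n _ _ (hφ i b)]
    have h1 := congrArg σ (hY n i a b)
    rw [map_mul, map_mul] at h1
    rw [map_mul, map_mul]
    linear_combination ((c : unitBall (PadicAlgCl p)) : PadicAlgCl p) *
      σ ((x n (J n))⁻¹ ^ e i) * h1
  choose bb hbb using fun n => Function.ne_iff.1 (hY0 n)
  let b : ℕ → Fin (M + 1) := fun n => if n1 ≤ n then cb (rep n) else bb n
  have hYne : ∀ n, n1 ≤ n → Y n (cb (rep n)) ≠ 0 := by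
    intro n hn h0
    apply hY0 n
    funext a
    have h1 := hzY n hn (ci (rep n)) a (cb (rep n))
    rw [h0, map_zero, mul_zero] at h1
    have h2 := (hunit2 n hn)
    rw [unitBall_isUnit_iff] at h2
    have h3 : ((eval (z n) (φ' (ci (rep n)) (cb (rep n))) : unitBall (PadicAlgCl p)) :
        PadicAlgCl p) ≠ 0 := by
      intro h4
      rw [h4, norm_zero] at h2
      exact zero_ne_one h2
    exact (map_eq_zero σ).1 ((mul_eq_zero.1 h1.symm).resolve_left h3)
  refine ⟨p, hp, hp3, σ, κ, n1, b, hκ, fun n => ?_, fun a c hc => ?_⟩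
  · simp only [b]
    split_ifs with hn
    · exact hYne n hn
    · exact hbb n
  · set i0 := ci (rep c) with hi0
    set b0 := cb (rep c) with hb0
    have hU : ∀ t, IsUnit (eval (z (c + κ * t)) (φ' i0 b0)) := by
      intro t
      have h1 := hunit2 (c + κ * t) (by omega)
      rwa [hrep3 c hc] at h1
    choose w hw using fun t => (hU t).exists_right_inv
    have hzn : ∀ a, Nice ((p : unitBall (PadicAlgCl p)) ^ 2) 0 fun t => z (c + κ * t) a :=
      fun a => (hz2 c hc a).1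
    have hwn : Nice ((p : unitBall (PadicAlgCl p)) ^ 2) 0 w := by
      refine (nice_eval hzn (φ' i0 b0)).inv (c := eval (z c) (φ' i0 b0)) ?_ (fun t => ?_) hw
      · exact hU 0
      · exact eval_cong (fun a => (hz2 c hc a).2 t) _
    refine ⟨(fun t => eval (z (c + κ * t)) (φ' i0 a)) * w, (nice_eval hzn _).mul' hwn, fun t => ?_⟩
    have hb : b (c + κ * t) = b0 := by
      simp only [b]
      rw [if_pos (by omega), hrep3 c hc]
    have h1 := hzY (c + κ * t) (by omega) i0 a b0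
    have h2 := congrArg (fun u : unitBall (PadicAlgCl p) => (u : PadicAlgCl p)) (hw t)
    push_cast at h2
    have h3 : σ (Y (c + κ * t) b0) ≠ 0 := by
      have h4 := hYne (c + κ * t) (by omega)
      rw [hrep3 c hc] at h4
      exact (map_ne_zero σ).2 h4
    beta_reduce
    rw [hb, map_div₀, eq_div_iff h3, Pi.mul_apply]
    push_cast
    linear_combination ((w t : unitBall (PadicAlgCl p)) : PadicAlgCl p) * h1 +
      σ (Y (c + κ * t) a) * h2

end Pool.Agent.K6.H8.KS
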