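import Mathlib

/-!
Sequences in a commutative ring whose differences are highly divisible by a fixed element.
-/

set_option autoImplicit false

namespace Pool.Agent.K6.H8.KS

open Finset

variable {O : Type} [CommRing O]

/-- The differences of order `j` at `n` are divisible by `π ^ min n (j + a)`. -/
def Nice (π : O) (a : ℕ) (v : ℕ → O) : Prop :=
  ∀ k n j, k ≤ n → k ≤ j + a → π ^ k ∣ (fwdDiff 1)^[j] v n

variable {π : O} {a b : ℕ} {u v : ℕ → O}

theorem Nice.mono (h : Nice π a v) (hb : b ≤ a) : Nice π b v :=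
  fun k n j h1 h2 => h k n j h1 (by omega)

theorem Nice.add (hu : Nice π a u) (hv : Nice π a v) : Nice π a (u + v) := by
  intro k n j h1 h2
  rw [fwdDiff_iter_add, Pi.add_apply]
  exact dvd_add (hu k n j h1 h2) (hv k n j h1 h2)

theorem Nice.sum {ι : Type} (s : Finset ι) (w : ι → ℕ → O) (h : ∀ i ∈ s, Nice π a (w i)) :
    Nice π a (∑ i ∈ s, w i) := by
  intro k n j h1 h2
  rw [fwdDiff_iter_finsetSum, Finset.sum_apply]
  exact Finset.dvd_sum fun i hi => h i hi k n j h1 h2

theorem Nice.diff (h : Nice π a v) : Nice π (a + 1) (fwdDiff 1 v) := by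
  intro k n j h1 h2
  rw [← Function.iterate_succ_apply]
  exact h k n (j + 1) h1 (by omega)

theorem Nice.shift (h : Nice π a v) (c : ℕ) : Nice π a (fun n => v (n + c)) := by
  intro k n j h1 h2
  rw [fwdDiff_iter_comp_add]
  exact h k (n + c) j (by omega) h2

theorem nice_const (c : O) : Nice π 0 (fun _ => c) := by
  intro k n j h1 h2
  rcases j with _ | j
  · obtain rfl : k = 0 := by omega
    simp
  · rw [Function.iterate_succ_apply, fwdDiff_const]
    have h3 : (fwdDiff 1)^[j] (fun _ : ℕ => (0 : O)) = 0 := by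
      have h4 : (fun _ : ℕ => (0 : O)) = (0 : ℕ) • (fun _ : ℕ => (0 : O)) := by simp; rfl
      rw [h4, fwdDiff_iter_const_smul]
      simp
    rw [h3]
    exact dvd_zero _

theorem diff_mul (u v : ℕ → O) : fwdDiff 1 (u * v) =
    fwdDiff 1 u * (fun n => v (n + 1)) + u * fwdDiff 1 v := by
  funext n
  simp only [fwdDiff, Pi.mul_apply, Pi.add_apply]
  ring

theorem Nice.mul (hu : Nice π a u) (hv : Nice π b v) : Nice π (a + b) (u * v) := by
  intro k n j h1 h2
  induction j generalizing a b u v with
  | zero =>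
    rw [Function.iterate_zero, id_eq, Pi.mul_apply]
    have h3 := hu (min n a) n 0 (min_le_left _ _) (by omega)
    have h4 := hv (min n b) n 0 (min_le_left _ _) (by omega)
    rw [Function.iterate_zero, id_eq] at h3 h4
    refine (pow_dvd_pow π ?_).trans (by rw [pow_add]; exact mul_dvd_mul h3 h4)
    omega
  | succ j ih =>
    rw [Function.iterate_succ_apply, diff_mul, fwdDiff_iter_add, Pi.add_apply]
    exact dvd_add (ih hu.diff (hv.shift 1) (by omega)) (ih hu hv.diff (by omega))

theorem Nice.mul' (hu : Nice π 0 u) (hv : Nice π 0 v) : Nice π 0 (u * v) := by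
  have := hu.mul hv
  simpa using this

theorem Nice.pow (hu : Nice π 0 u) (n : ℕ) : Nice π 0 (u ^ n) := by
  induction n with
  | zero =>
    rw [pow_zero]
    exact nice_const 1
  | succ n ih =>
    rw [pow_succ]
    exact ih.mul' hu

theorem Nice.prod {ι : Type} (s : Finset ι) (w : ι → ℕ → O) (h : ∀ i ∈ s, Nice π 0 (w i)) :
    Nice π 0 (∏ i ∈ s, w i) := by
  classical
  induction s using Finset.induction_on with
  | empty =>
    rw [Finset.prod_empty]
    exact nice_const 1
  | insert i s hi ih =>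
    rw [Finset.prod_insert hi]
    exact (h i (Finset.mem_insert_self _ _)).mul'
      (ih fun j hj => h j (Finset.mem_insert_of_mem hj))

/-- Closure under uniform approximation. -/
theorem nice_of_approx (h : ∀ J : ℕ, ∃ w : ℕ → O, Nice π a w ∧ ∀ n, π ^ J ∣ v n - w n) :
    Nice π a v := by
  intro k n j h1 h2
  obtain ⟨w, hw, hd⟩ := h k
  have h3 : v = w + (v - w) := by ring
  rw [h3, fwdDiff_iter_add, Pi.add_apply]
  refine dvd_add (hw k n j h1 h2) ?_
  rw [fwdDiff_iter_eq_sum_shift]
  refine Finset.dvd_sum fun i _ => ?_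
  rw [zsmul_eq_mul]
  exact dvd_mul_of_dvd_right (hd _) _

/-- Inverses of sequences which are congruent to a unit. -/
theorem Nice.inv {c : O} (hv : Nice π 0 v) (hc : IsUnit c) (h : ∀ n, π ∣ v n - c)
    {w : ℕ → O} (hw : ∀ n, v n * w n = 1) : Nice π 0 w := by
  obtain ⟨c', hc'⟩ := hc.exists_right_inv
  refine nice_of_approx fun J => ?_
  let y : ℕ → O := (fun _ => 1) + (fun _ => -c') * v
  have hy : Nice π 0 y := (nice_const 1).add ((nice_const (-c')).mul' hv)
  let w' : ℕ → O := (fun _ => c') * ∑ i ∈ Finset.range J, y ^ i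
  refine ⟨w', (nice_const c').mul' (Nice.sum _ _ fun i _ => hy.pow i), fun n => ?_⟩
  have h1 : y n = 1 - c' * v n := by
    simp only [y, Pi.add_apply, Pi.mul_apply]
    ring
  have h2 : π ∣ y n := by
    rw [h1]
    have h3 : 1 - c' * v n = -c' * (v n - c) := by linear_combination -hc'
    rw [h3]
    exact dvd_mul_of_dvd_right (h n) _
  have h4 : w n - w' n = w n * y n ^ J := by
    simp only [w', Pi.mul_apply, Finset.sum_apply, Pi.pow_apply]
    have h5 := mul_neg_geom_sum (y n) J
    have h6 : (1 - y n) = c' * v n := by rw [h1]; ring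
    rw [h6] at h5
    have h7 : c' * ∑ i ∈ Finset.range J, y n ^ i = w n * (1 - y n ^ J) := by
      rw [← h5]
      linear_combination (-(c' * ∑ i ∈ Finset.range J, y n ^ i)) * hw n
    rw [h7]
    ring
  rw [h4]
  exact dvd_mul_of_dvd_right (pow_dvd_pow_of_dvd h2 J) _

/-- differences of a sequence along an arithmetic progression -/
theorem diff_affine (v : ℕ → O) (m c : ℕ) : fwdDiff 1 (fun t => v (c + m * t)) =
    ∑ i ∈ Finset.range m, fun t => fwdDiff 1 v ((c + i) + m * t) := by
  funext t
  rw [Finset.sum_apply]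
  simp only [fwdDiff]
  have h1 : ∀ M : ℕ, ∑ i ∈ Finset.range M, (v (c + i + m * t + 1) - v (c + i + m * t)) =
      v (c + m * t + M) - v (c + m * t) := by
    intro M
    induction M with
    | zero => simp
    | succ M ih =>
      rw [Finset.sum_range_succ, ih]
      have e1 : c + M + m * t + 1 = c + m * t + (M + 1) := by ring
      have e2 : c + M + m * t = c + m * t + M := by ring
      rw [e1, e2]
      ring
  rw [h1]
  have e3 : c + m * (t + 1) = c + m * t + m := by ring
  rw [e3]

theorem Nice.affine (hv : Nice π a v) {m : ℕ} (hm : 0 < m) (c : ℕ) :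
    Nice π a (fun t => v (c + m * t)) := by
  intro k n j h1 h2
  induction j generalizing a v c with
  | zero =>
    rw [Function.iterate_zero, id_eq]
    have h3 := hv k (c + m * n) 0 (h1.trans (by nlinarith)) h2
    rwa [Function.iterate_zero, id_eq] at h3
  | succ j ih =>
    rw [Function.iterate_succ_apply, diff_affine, fwdDiff_iter_finsetSum, Finset.sum_apply]
    exact Finset.dvd_sum fun i _ => ih hv.diff (c + i) (by omega)

theorem diff_affine_zero {j : ℕ} (h : (fwdDiff 1)^[j] v = 0) (m c : ℕ) :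
    (fwdDiff 1)^[j] (fun t => v (c + m * t)) = 0 := by
  induction j generalizing v c with
  | zero =>
    rw [Function.iterate_zero, id_eq] at h ⊢
    rw [h]
    rfl
  | succ j ih =>
    rw [Function.iterate_succ_apply] at h
    rw [Function.iterate_succ_apply, diff_affine, fwdDiff_iter_finsetSum]
    exact Finset.sum_eq_zero fun i _ => ih h (c + i)

theorem diff_zero_mono {j i : ℕ} (h : (fwdDiff 1)^[j] v = 0) (hi : j ≤ i) :
    (fwdDiff 1)^[i] v = 0 := by
  obtain ⟨l, rfl⟩ : ∃ l, i = l + j := ⟨i - j, by omega⟩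
  rw [Function.iterate_add_apply, h]
  have h4 : (0 : ℕ → O) = (0 : ℕ) • (0 : ℕ → O) := by simp
  rw [h4, fwdDiff_iter_const_smul]
  simp

theorem diff_choose_zero (l : ℕ) : (fwdDiff 1)^[l + 1] (fun n : ℕ => ((n.choose l : ℕ) : O)) = 0 := by
  induction l with
  | zero =>
    funext n
    simp [fwdDiff]
  | succ l ih =>
    rw [Function.iterate_succ_apply]
    have h1 : fwdDiff 1 (fun n : ℕ => ((n.choose (l + 1) : ℕ) : O)) =
        fun n : ℕ => ((n.choose l : ℕ) : O) := by
      funext n
      simp only [fwdDiff]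
      rw [Nat.choose_succ_succ']
      push_cast
      ring
    rw [h1, ih]

theorem nice_of_diff_zero {l : ℕ} (h : (fwdDiff 1)^[l + 1] v = 0) :
    Nice π 0 (fun n => π ^ l * v n) := by
  intro k n j h1 h2
  have h3 : (fun n => π ^ l * v n) = π ^ l • v := rfl
  rw [h3, fwdDiff_iter_const_smul, Pi.smul_apply, smul_eq_mul]
  by_cases hj : j ≤ l
  · exact dvd_mul_of_dvd_left (pow_dvd_pow π (by omega)) _
  · rw [diff_zero_mono h (by omega), Pi.zero_apply, mul_zero]
    exact dvd_zero _

theorem nice_choose (l m c : ℕ) :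
    Nice π 0 (fun t => π ^ l * (((c + m * t).choose l : ℕ) : O)) :=
  nice_of_diff_zero (diff_affine_zero (diff_choose_zero l) m c)

/-- extrapolation of the zeros -/
theorem Nice.dvd_of_zeros (hv : Nice π 0 v) {s : ℕ} (h : ∀ i < s, v i = 0) :
    π ^ (s / 2) ∣ v s := by
  have h1 := hv (s / 2) (s / 2) (s - s / 2) le_rfl (by omega)
  rw [fwdDiff_iter_eq_sum_shift, Finset.sum_range_succ, Finset.sum_eq_zero] at h1
  · have h2 : s / 2 + (s - s / 2) • 1 = s := by
      rw [smul_eq_mul, mul_one]
      omega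
    rw [h2, Nat.choose_self, Nat.sub_self] at h1
    simpa using h1
  · intro i hi
    rw [Finset.mem_range] at hi
    rw [h, smul_zero]
    rw [smul_eq_mul, mul_one]
    omega

theorem diff_comp_cast (F : O → O) (j : ℕ) :
    (fwdDiff 1)^[j] (fun t : ℕ => F (t : O)) = fun t : ℕ => (fwdDiff 1)^[j] F (t : O) := by
  induction j generalizing F with
  | zero => rfl
  | succ j ih =>
    rw [Function.iterate_succ_apply, Function.iterate_succ_apply]
    have h1 : fwdDiff 1 (fun t : ℕ => F (t : O)) = fun t : ℕ => (fwdDiff 1 F) (t : O) := by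
      funext t
      simp only [fwdDiff]
      push_cast
      rfl
    rw [h1, ih]

theorem diff_prod_zero [IsDomain O] (B : Finset ℕ) :
    (fwdDiff 1)^[B.card + 1] (fun t : ℕ => ∏ b ∈ B, ((t : O) - (b : O))) = 0 := by
  obtain ⟨P, hP⟩ : ∃ P : Polynomial O, P = ∏ b ∈ B, (Polynomial.X - Polynomial.C (b : O)) :=
    ⟨_, rfl⟩
  have h1 : (fun t : ℕ => ∏ b ∈ B, ((t : O) - (b : O))) = fun t : ℕ => P.eval (t : O) := by
    funext t
    rw [hP, Polynomial.eval_prod]
    refine Finset.prod_congr rfl fun b _ => ?_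
    simp
  have h2 : P.natDegree < B.card + 1 := by
    rw [hP, Polynomial.natDegree_prod_of_monic _ _ fun b _ => Polynomial.monic_X_sub_C _]
    simp only [Polynomial.natDegree_X_sub_C, Finset.sum_const, smul_eq_mul, mul_one]
    exact Nat.lt_succ_self _
  rw [h1]
  have h3 := Polynomial.fwdDiff_iter_eq_zero_of_degree_lt h2
  have h4 := diff_comp_cast (fun t : O => P.eval t) (B.card + 1)
  refine h4.trans ?_
  funext t
  exact congrFun h3 (t : O)

/-- extrapolation of the zeros, with few exceptions -/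
theorem Nice.dvd_of_most_zeros [IsDomain O] (hv : Nice π 0 v) {s : ℕ} {B : Finset ℕ}
    (h : ∀ i < s, i ∉ B → v i = 0) :
    π ^ (s / 2) ∣ π ^ B.card * (∏ b ∈ B, ((s : O) - (b : O))) * v s := by
  have h1 : Nice π 0 ((fun t : ℕ => π ^ B.card * ∏ b ∈ B, ((t : O) - (b : O))) * v) :=
    (nice_of_diff_zero (diff_prod_zero B)).mul' hv
  have h2 := h1.dvd_of_zeros (s := s) (by
    intro i hi
    rw [Pi.mul_apply]
    by_cases hiB : i ∈ B
    · rw [Finset.prod_eq_zero hiB (sub_self _), mul_zero, zero_mul]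
    · rw [h i hi hiB, mul_zero])
  rwa [Pi.mul_apply] at h2

end Pool.Agent.K6.H8.KS
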