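import Pool.Agent.R847.Gap.Affine
import Pool.Agent.K6.H8.KS.Nice

/-!
Sizes of algebraic numbers: heights, houses and `p`-adic absolute values.
-/

set_option autoImplicit false

namespace Pool.Agent.K6.H8.KS

open Finset Pool.Agent.R847.Gap Pool.Agent.H936R2

theorem weight_bound {P : ℝ} (hP : 1 ≤ P) {η : ℝ} (hη : 0 < η) :
    ∃ Λ : ℕ, 0 < Λ ∧ ∀ D N n l : ℕ, l ≤ D → Λ * D ≤ N → n ≤ N →
      P ^ l * (n.choose l : ℝ) ≤ Real.exp (η * N) := by
  set x : ℝ := min 1 (η / 2) with hx
  have hx0 : 0 < x := lt_min one_pos (by positivity)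
  have hx1 : x ≤ 1 := min_le_left _ _
  have hx2 : x ≤ η / 2 := min_le_right _ _
  have hPx : 1 ≤ P / x := by
    rw [le_div_iff₀ hx0]
    linarith
  obtain ⟨Λ, hΛ⟩ := exists_nat_ge (2 / η * Real.log (P / x))
  refine ⟨Λ + 1, Nat.succ_pos _, fun D N n l hl hD hn => ?_⟩
  have h1 : (n.choose l : ℝ) * x ^ l ≤ Real.exp (η / 2 * N) := by
    have h2 : (n.choose l : ℝ) * x ^ l ≤ (x + 1) ^ n := by
      by_cases hln : l ≤ n
      · rw [add_pow]
        have h3 := Finset.single_le_sum (f := fun m => x ^ m * 1 ^ (n - m) * (n.choose m : ℝ))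
          (s := Finset.range (n + 1)) (fun i _ => by positivity)
          (Finset.mem_range.2 (Nat.lt_succ_of_le hln))
        simp only [one_pow, mul_one] at h3 ⊢
        linarith [mul_comm (x ^ l) (n.choose l : ℝ)]
      · rw [Nat.choose_eq_zero_of_lt (by omega)]
        simp only [Nat.cast_zero, zero_mul]
        positivity
    have h3 : (x + 1) ^ n ≤ Real.exp (x * n) := by
      rw [mul_comm, Real.exp_nat_mul]
      exact pow_le_pow_left₀ (by positivity) (Real.add_one_le_exp x) n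
    refine h2.trans (h3.trans (Real.exp_le_exp.2 ?_))
    have h4 : (n : ℝ) ≤ N := by exact_mod_cast hn
    have h5 : (0 : ℝ) ≤ n := Nat.cast_nonneg n
    nlinarith
  have h6 : (P / x) ^ l ≤ Real.exp (η / 2 * N) := by
    have h7 : (P / x) ^ l ≤ (P / x) ^ D := pow_le_pow_right₀ hPx hl
    have h8 : (P / x) ^ D = Real.exp (D * Real.log (P / x)) := by
      rw [Real.exp_nat_mul, Real.exp_log (by positivity)]
    refine h7.trans (h8.le.trans (Real.exp_le_exp.2 ?_))
    have h9 : Real.log (P / x) ≤ η / 2 * Λ := by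
      have h10 : 2 / η * Real.log (P / x) ≤ Λ := hΛ
      have h11 : Real.log (P / x) = η / 2 * (2 / η * Real.log (P / x)) := by
        field_simp
      rw [h11]
      exact mul_le_mul_of_nonneg_left h10 (by positivity)
    have h12 : ((Λ : ℝ) + 1) * D ≤ N := by exact_mod_cast hD
    have h13 : (0 : ℝ) ≤ D := Nat.cast_nonneg D
    calc (D : ℝ) * Real.log (P / x) ≤ D * (η / 2 * Λ) := mul_le_mul_of_nonneg_left h9 h13
      _ = η / 2 * (Λ * D) := by ring
      _ ≤ η / 2 * N := mul_le_mul_of_nonneg_left (by linarith) (by positivity)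
  calc P ^ l * (n.choose l : ℝ) = (P / x) ^ l * ((n.choose l : ℝ) * x ^ l) := by
        rw [div_pow]
        field_simp
    _ ≤ Real.exp (η / 2 * N) * Real.exp (η / 2 * N) :=
        mul_le_mul h6 h1 (by positivity) (by positivity)
    _ = Real.exp (η * N) := by rw [← Real.exp_add]; ring_nf

variable {K : Type} [Field K] [NumberField K]

theorem house_le_mulHeight₁ (x : K) : NumberField.house x ≤ Height.mulHeight₁ x := by
  classical
  rw [NumberField.house_eq_sup']
  obtain ⟨φ, -, hφ⟩ := Finset.exists_mem_eq_sup' (Finset.univ_nonempty (α := K →+* ℂ))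
    (fun φ : K →+* ℂ ↦ ‖φ x‖₊)
  rw [hφ, coe_nnnorm, NumberField.mulHeight₁_eq]
  set v := NumberField.InfinitePlace.mk φ with hv
  have h1 : ‖φ x‖ = v x := rfl
  rw [h1]
  have h2 : (1 : ℝ) ≤ ∏ᶠ w : NumberField.FinitePlace K, max (w x) 1 :=
    one_le_finprod fun _ ↦ le_max_right ..
  have h3 : v x ≤ ∏ w : NumberField.InfinitePlace K, max (w x) 1 ^ w.mult := by
    have h4 : v x ≤ max (v x) 1 ^ v.mult :=
      (le_max_left _ _).trans (le_self_pow₀ (le_max_right _ _) v.mult_ne_zero)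
    refine h4.trans ?_
    have h5 := Finset.prod_le_prod_of_subset_of_one_le' (ι := NumberField.InfinitePlace K)
      (N := NNReal) (s := {v}) (t := Finset.univ)
      (f := fun w => (max ⟨w x, apply_nonneg w x⟩ 1) ^ w.mult) (Finset.subset_univ _)
      (fun i _ _ => one_le_pow₀ (le_max_right _ _))
    rw [Finset.prod_singleton] at h5
    have h6 := NNReal.coe_le_coe.2 h5
    push_cast at h6
    exact h6
  calc v x ≤ (∏ w : NumberField.InfinitePlace K, max (w x) 1 ^ w.mult) * 1 := by rwa [mul_one]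
    _ ≤ _ := mul_le_mul_of_nonneg_left h2 ((apply_nonneg v x).trans h3)

omit [NumberField K] in
theorem norm_integral_le {p : ℕ} [Fact p.Prime] (σ : K →+* PadicAlgCl p) {α : K}
    (hα : IsIntegral ℤ α) : ‖σ α‖ ≤ 1 := by
  obtain ⟨f, hf, h0⟩ := hα.map σ.toIntAlgHom
  refine norm_le_one_of_monic (f.map (algebraMap ℤ (PadicAlgCl p))) (hf.map _) (fun i => ?_) ?_
  · rw [Polynomial.coeff_map, eq_intCast]
    exact IsUltrametricDist.norm_intCast_le_one (PadicAlgCl p) _
  · rw [Polynomial.eval_map]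
    exact h0

/-- The `p`-adic Liouville inequality. -/
theorem liouville {p : ℕ} [Fact p.Prime] (σ : K →+* PadicAlgCl p) {α : K}
    (hα : IsIntegral ℤ α) (h0 : α ≠ 0) :
    1 ≤ ‖σ α‖ * NumberField.house α ^ Module.finrank ℚ K := by
  classical
  obtain ⟨z, hz⟩ := IsIntegrallyClosed.isIntegral_iff.1 (Algebra.isIntegral_norm ℚ hα)
  have hz0 : z ≠ 0 := by
    rintro rfl
    rw [map_zero] at hz
    exact h0 (Algebra.norm_eq_zero_iff.1 hz.symm)
  have h1 := one_le_norm_int p z hz0
  have h2 : ‖(z : PadicAlgCl p)‖ ≤ ‖σ α‖ := by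
    have h3 : (z : PadicAlgCl p) = algebraMap ℚ (PadicAlgCl p) (Algebra.norm ℚ α) := by
      rw [← hz]
      simp
    rw [h3, Algebra.norm_eq_prod_embeddings, norm_prod,
      ← Finset.mul_prod_erase Finset.univ _ (Finset.mem_univ σ.toRatAlgHom)]
    calc ‖σ.toRatAlgHom α‖ * ∏ τ ∈ Finset.univ.erase σ.toRatAlgHom, ‖τ α‖
        ≤ ‖σ α‖ * 1 := by
          refine mul_le_mul le_rfl ?_ (Finset.prod_nonneg fun _ _ => norm_nonneg _)
            (norm_nonneg _)
          exact Finset.prod_le_one (fun _ _ => norm_nonneg _)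
            fun τ _ => norm_integral_le τ.toRingHom hα
      _ = ‖σ α‖ := mul_one _
  have h4 : |(z : ℝ)| ≤ NumberField.house α ^ Module.finrank ℚ K := by
    obtain ⟨ρ⟩ : Nonempty (K →+* ℂ) := inferInstance
    have h5 := NumberField.norm_norm_le_norm_mul_house_pow α ρ
    rw [← hz] at h5
    have h6 : ‖(algebraMap ℤ ℚ) z‖ = |(z : ℝ)| := by
      rw [eq_intCast, ← Rat.norm_cast_real]
      simp
    rw [h6] at h5
    refine h5.trans ?_
    have hd : 0 < Module.finrank ℚ K := Module.finrank_pos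
    calc ‖ρ α‖ * NumberField.house α ^ (Module.finrank ℚ K - 1)
        ≤ NumberField.house α * NumberField.house α ^ (Module.finrank ℚ K - 1) :=
          mul_le_mul_of_nonneg_right (NumberField.norm_embedding_le_house α ρ)
            (pow_nonneg (NumberField.house_nonneg α) _)
      _ = NumberField.house α ^ Module.finrank ℚ K := by
          rw [← pow_succ']
          congr 1
          omega
  exact h1.trans (mul_le_mul h2 h4 (abs_nonneg _) (norm_nonneg _))

/-- Siegel's lemma over a number field, with exponent at most one. -/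
theorem siegel (K : Type) [Field K] [NumberField K] : ∃ c : ℝ, 1 ≤ c ∧
    ∀ {α β : Type} [Fintype α] [Fintype β] (M : Matrix α β (NumberField.RingOfIntegers K)) (A : ℝ),
      0 < Fintype.card α → 2 * Fintype.card α ≤ Fintype.card β → 1 ≤ A →
      (∀ k l, NumberField.house ((M k l : NumberField.RingOfIntegers K) : K) ≤ A) →
      ∃ ξ : β → NumberField.RingOfIntegers K, ξ ≠ 0 ∧ M.mulVec ξ = 0 ∧
        ∀ l, NumberField.house ((ξ l : NumberField.RingOfIntegers K) : K) ≤
          c * Fintype.card β * A := by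
  classical
  obtain ⟨c, hc⟩ : ∃ c : ℝ, ∀ {α β : Type} [Fintype α] [Fintype β]
      (M : Matrix α β (NumberField.RingOfIntegers K)) (A : ℝ), M ≠ 0 →
      0 < Fintype.card α → Fintype.card α < Fintype.card β →
      (∀ k l, NumberField.house ((M k l : NumberField.RingOfIntegers K) : K) ≤ A) →
      ∃ ξ : β → NumberField.RingOfIntegers K, ξ ≠ 0 ∧ M.mulVec ξ = 0 ∧
        ∀ l, NumberField.house ((ξ l : NumberField.RingOfIntegers K) : K) ≤
          c * ((c * Fintype.card β * A) ^
            (((Fintype.card α : ℕ) : ℝ) / (Fintype.card β - Fintype.card α))) :=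
    ⟨_, fun {α β} _ _ M A hM h1 h2 h3 =>
      NumberField.house.exists_ne_zero_int_vec_house_le K M hM h1 h2 rfl h3 rfl⟩
  refine ⟨max |c| 1 ^ 2, one_le_pow₀ (le_max_right _ _), ?_⟩
  intro α β _ _ M A h1 h2 hA h3
  have hb1 : (1 : ℝ) ≤ Fintype.card β := by
    exact_mod_cast (by omega : 1 ≤ Fintype.card β)
  by_cases hM : M = 0
  · refine ⟨fun _ => 1, ?_, ?_, fun l => ?_⟩
    · have : Nonempty β := Fintype.card_pos_iff.1 (by omega)
      obtain ⟨l⟩ := this
      intro h
      exact one_ne_zero (congrFun h l)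
    · rw [hM, Matrix.zero_mulVec]
    · have h4 : NumberField.house (((1 : NumberField.RingOfIntegers K)) : K) = 1 := by
        have := NumberField.house_intCast (K := K) 1
        simpa using this
      rw [h4]
      have h5 : (1 : ℝ) ≤ max |c| 1 ^ 2 := one_le_pow₀ (le_max_right _ _)
      have h6 : (1 : ℝ) ≤ max |c| 1 ^ 2 * Fintype.card β := one_le_mul_of_one_le_of_one_le h5 hb1
      exact one_le_mul_of_one_le_of_one_le h6 hA
  · obtain ⟨ξ, e1, e2, e3⟩ := hc M A hM h1 (by omega) h3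
    refine ⟨ξ, e1, e2, fun l => (e3 l).trans ?_⟩
    set m := max |c| 1 with hm
    have hm1 : 1 ≤ m := le_max_right _ _
    have hcm : |c| ≤ m := le_max_left _ _
    have hbase : 1 ≤ m * Fintype.card β * A :=
      one_le_mul_of_one_le_of_one_le (one_le_mul_of_one_le_of_one_le hm1 hb1) hA
    set e : ℝ := ((Fintype.card α : ℕ) : ℝ) / (Fintype.card β - Fintype.card α) with he
    have hge : (2 : ℝ) * Fintype.card α ≤ Fintype.card β := by exact_mod_cast h2
    have hpos : (0 : ℝ) < Fintype.card α := by exact_mod_cast h1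
    have he1 : e ≤ 1 := by
      rw [he, div_le_one (by linarith)]
      linarith
    have he0 : 0 ≤ e := div_nonneg hpos.le (by linarith)
    have h7 : |(c * Fintype.card β * A) ^ e| ≤ m * Fintype.card β * A := by
      calc |(c * Fintype.card β * A) ^ e| ≤ |c * Fintype.card β * A| ^ e :=
            Real.abs_rpow_le_abs_rpow _ _
        _ ≤ (m * Fintype.card β * A) ^ e := by
            apply Real.rpow_le_rpow (abs_nonneg _) _ he0
            rw [abs_mul, abs_mul, abs_of_nonneg (by positivity : (0 : ℝ) ≤ Fintype.card β),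
              abs_of_nonneg (by linarith : (0 : ℝ) ≤ A)]
            gcongr
        _ ≤ (m * Fintype.card β * A) ^ (1 : ℝ) := Real.rpow_le_rpow_of_exponent_le hbase he1
        _ = _ := Real.rpow_one _
    calc c * (c * Fintype.card β * A) ^ e ≤ |c * (c * Fintype.card β * A) ^ e| := le_abs_self _
      _ = |c| * |(c * Fintype.card β * A) ^ e| := abs_mul _ _
      _ ≤ m * (m * Fintype.card β * A) := mul_le_mul hcm h7 (abs_nonneg _) (by positivity)
      _ = _ := by ring

theorem norm_p_eq (p : ℕ) [Fact p.Prime] : ‖(p : PadicAlgCl p)‖ = (p : ℝ)⁻¹ := by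
  have h := PadicAlgCl.norm_extends p (p : ℚ_[p])
  change ‖algebraMap ℚ_[p] (PadicAlgCl p) (p : ℚ_[p])‖ = _ at h
  rw [map_natCast] at h
  rw [h, Padic.norm_p]

theorem norm_factorial (p : ℕ) [hp : Fact p.Prime] (hp3 : 3 ≤ p) (t : ℕ) :
    ∃ v : ℕ, 2 * v ≤ t ∧ ‖((t.factorial : ℕ) : PadicAlgCl p)‖ = ((p : ℝ)⁻¹) ^ v := by
  refine ⟨padicValNat p t.factorial, ?_, ?_⟩
  · have h1 := sub_one_mul_padicValNat_factorial (p := p) t
    have h2 : 2 * padicValNat p t.factorial ≤ (p - 1) * padicValNat p t.factorial :=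
      Nat.mul_le_mul_right _ (by omega)
    omega
  · have h := PadicAlgCl.norm_extends p ((t.factorial : ℕ) : ℚ_[p])
    change ‖algebraMap ℚ_[p] (PadicAlgCl p) ((t.factorial : ℕ) : ℚ_[p])‖ = _ at h
    rw [map_natCast] at h
    rw [h, Padic.norm_eq_zpow_neg_valuation (Nat.cast_ne_zero.2 (Nat.factorial_ne_zero t)),
      Padic.valuation_natCast, zpow_neg, zpow_natCast, inv_pow]

/-- the product of some of the factors of a factorial -/
theorem norm_prod_sub (p : ℕ) [hp : Fact p.Prime] {s : ℕ} {B : Finset ℕ}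
    (hB : B ⊆ Finset.range s) :
    ‖((s.factorial : ℕ) : PadicAlgCl p)‖ ≤
      ‖∏ b ∈ B, ((s : PadicAlgCl p) - (b : PadicAlgCl p))‖ := by
  have h1 : ((s.factorial : ℕ) : PadicAlgCl p) =
      ∏ b ∈ Finset.range s, ((s : PadicAlgCl p) - (b : PadicAlgCl p)) := by
    rw [← Nat.descFactorial_self, Nat.descFactorial_eq_prod_range, Nat.cast_prod]
    refine Finset.prod_congr rfl fun b hb => ?_
    rw [Nat.cast_sub (Finset.mem_range.1 hb).le]
  rw [h1, ← Finset.prod_sdiff hB, norm_mul]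
  have h2 : ‖∏ b ∈ Finset.range s \ B, ((s : PadicAlgCl p) - (b : PadicAlgCl p))‖ ≤ 1 := by
    rw [norm_prod]
    refine Finset.prod_le_one (fun _ _ => norm_nonneg _) fun b _ => ?_
    have h3 : ((s : PadicAlgCl p) - (b : PadicAlgCl p)) = (((s : ℤ) - (b : ℤ) : ℤ) : PadicAlgCl p) := by
      push_cast
      rfl
    rw [h3]
    exact IsUltrametricDist.norm_intCast_le_one (PadicAlgCl p) _
  exact mul_le_of_le_one_left (norm_nonneg _) h2

/-- extrapolation in terms of the absolute values -/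
theorem norm_extrapolate (p : ℕ) [hp : Fact p.Prime] (hp3 : 3 ≤ p)
    {v : ℕ → unitBall (PadicAlgCl p)} (hv : Nice ((p : unitBall (PadicAlgCl p)) ^ 2) 0 v)
    {s : ℕ} {B : Finset ℕ} (hB : B ⊆ Finset.range s) (h : ∀ i < s, i ∉ B → v i = 0) :
    ‖((v s : unitBall (PadicAlgCl p)) : PadicAlgCl p)‖ ≤
      Real.exp (-(Real.log p * ((s : ℝ) / 2 - 1 - 2 * B.card))) := by
  have hp0 : (0 : ℝ) < p := by exact_mod_cast hp.out.pos
  have hp1 : (1 : ℝ) < p := by exact_mod_cast hp.out.one_lt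
  have hL : 0 < Real.log p := Real.log_pos hp1
  obtain ⟨z, hz⟩ := hv.dvd_of_most_zeros h
  obtain ⟨m, hm, hf⟩ := norm_factorial p hp3 s
  have h1 := congrArg (fun w : unitBall (PadicAlgCl p) => ‖(w : PadicAlgCl p)‖) hz
  push_cast at h1
  rw [norm_mul, norm_mul, norm_mul, norm_pow, norm_pow, norm_pow, norm_pow, norm_p_eq] at h1
  have h2 := norm_prod_sub p hB
  rw [hf] at h2
  have h3 : ‖(z : PadicAlgCl p)‖ ≤ 1 := unitBall_norm_le z
  have he : (p : ℝ)⁻¹ = Real.exp (-Real.log p) := by rw [Real.exp_neg, Real.exp_log hp0]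
  rw [he] at h1 h2
  set V : ℝ := ‖((v s : unitBall (PadicAlgCl p)) : PadicAlgCl p)‖ with hV
  have hV0 : 0 ≤ V := norm_nonneg _
  have h5 : (Real.exp (-Real.log p) ^ 2) ^ B.card * Real.exp (-Real.log p) ^ m * V ≤
      (Real.exp (-Real.log p) ^ 2) ^ (s / 2) := by
    calc _ ≤ (Real.exp (-Real.log p) ^ 2) ^ B.card *
          ‖∏ b ∈ B, ((s : PadicAlgCl p) - (b : PadicAlgCl p))‖ * V := by
          gcongr
      _ = (Real.exp (-Real.log p) ^ 2) ^ (s / 2) * ‖(z : PadicAlgCl p)‖ := h1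
      _ ≤ (Real.exp (-Real.log p) ^ 2) ^ (s / 2) * 1 := by gcongr
      _ = _ := mul_one _
  rw [← Real.exp_nat_mul, ← Real.exp_nat_mul, ← Real.exp_nat_mul, ← Real.exp_nat_mul,
    ← Real.exp_add] at h5
  have h6 : V ≤ Real.exp (((s / 2 : ℕ) : ℝ) * (((2 : ℕ) : ℝ) * -Real.log p) -
      (((B.card : ℕ) : ℝ) * (((2 : ℕ) : ℝ) * -Real.log p) + (m : ℝ) * -Real.log p)) := by
    rw [Real.exp_sub, le_div_iff₀ (Real.exp_pos _), mul_comm]
    exact h5
  refine h6.trans (Real.exp_le_exp.2 ?_)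
  have h7 : (s : ℝ) ≤ 2 * ((s / 2 : ℕ) : ℝ) + 1 := by
    have : s ≤ 2 * (s / 2) + 1 := by omega
    exact_mod_cast this
  have h8 : 2 * (m : ℝ) ≤ s := by exact_mod_cast hm
  push_cast
  nlinarith

end Pool.Agent.K6.H8.KS
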