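import Pool.Agent.K6.H8.KS.Nice
import Pool.Agent.K6.H8.KS.Sizes

/-!
Sequences of small height in a number field which are analytic at one prime are linearly dependent
over the polynomials in the index.
-/

set_option autoImplicit false

namespace Pool.Agent.K6.H8.KS

open Finset Pool.Agent.R847.Gap Pool.Agent.H936R2

section

variable {K : Type} [Field K]

/-- The sequence is nice along all arithmetic progressions with the difference `κ`. -/
def ANice (p : ℕ) [Fact p.Prime] (σ : K →+* PadicAlgCl p) (κ n1 : ℕ) (u : ℕ → K) : Prop :=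
  ∀ c, n1 ≤ c → ∃ v : ℕ → unitBall (PadicAlgCl p),
    Nice ((p : unitBall (PadicAlgCl p)) ^ 2) 0 v ∧
    ∀ t, ((v t : unitBall (PadicAlgCl p)) : PadicAlgCl p) = σ (u (c + κ * t))

/-- the binomial polynomial -/
noncomputable def cp (K : Type) [Field K] (l : ℕ) : Polynomial K :=
  Polynomial.C ((l.factorial : K)⁻¹) * descPochhammer K l

theorem cp_eval [CharZero K] (l n : ℕ) : (cp K l).eval (n : K) = (n.choose l : K) := by
  rw [cp, Polynomial.eval_mul, Polynomial.eval_C, descPochhammer_eval_eq_descFactorial,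
    Nat.descFactorial_eq_factorial_mul_choose]
  have : (l.factorial : K) ≠ 0 := Nat.cast_ne_zero.2 (Nat.factorial_ne_zero l)
  push_cast
  field_simp

theorem coeff_zero [CharZero K] {D : ℕ} {P : K} (hP : P ≠ 0) (ξ : Fin (D + 1) → K)
    (h : ∀ n : ℕ, ∑ l, ξ l * (P ^ (l : ℕ) * (n.choose l : K)) = 0) : ξ = 0 := by
  have h1 : ∀ m : ℕ, ∀ l : Fin (D + 1), (l : ℕ) = m → ξ l = 0 := by
    intro m
    induction m using Nat.strong_induction_on with
    | _ m ih =>
      intro l hl
      have h2 := h m
      rw [Finset.sum_eq_single l] at h2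
      · rw [← hl, Nat.choose_self, Nat.cast_one, mul_one] at h2
        exact (mul_eq_zero.1 h2).resolve_right (pow_ne_zero _ hP)
      · intro l' _ hl'
        rcases lt_trichotomy (l' : ℕ) m with h3 | h3 | h3
        · rw [ih _ h3 l' rfl, zero_mul]
        · exact absurd (Fin.ext (h3.trans hl.symm)) hl'
        · rw [Nat.choose_eq_zero_of_lt h3]
          simp
      · intro h3
        exact absurd (Finset.mem_univ l) h3
  funext l
  exact h1 l l rfl

end

variable {K : Type} [Field K] [NumberField K]

theorem slow_bound {ι : Type} [Fintype ι] (u : ι → ℕ → K) :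
    ∃ (δ : ℕ → ℕ) (B : ℕ → ℝ), (∀ n, δ n ≠ 0) ∧ (∀ n i, IsIntegral ℤ ((δ n : K) * u i n)) ∧
      (∀ n i, NumberField.house ((δ n : K) * u i n) ≤ B n) ∧
      ∀ n, B n = Real.exp (2 * ∑ i, Height.logHeight₁ (u i n)) := by
  classical
  choose d hd0 hd1 hd2 using fun i n => NumberField.exists_nat_le_mulHeight₁ (u i n)
  have hH1 : ∀ i n, (1 : ℝ) ≤ Height.mulHeight₁ (u i n) := fun i n => Height.one_le_mulHeight₁ _
  refine ⟨fun n => ∏ i, d i n, fun n => (∏ i, Height.mulHeight₁ (u i n)) ^ 2, fun n =>
    Finset.prod_ne_zero_iff.2 fun i _ => hd0 i n, fun n i => ?_, fun n i => ?_, fun n => ?_⟩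
  · beta_reduce
    rw [← Finset.mul_prod_erase Finset.univ (fun i => d i n) (Finset.mem_univ i)]
    have h1 : ((d i n * ∏ j ∈ Finset.univ.erase i, d j n : ℕ) : K) * u i n =
        ((∏ j ∈ Finset.univ.erase i, d j n : ℕ) : K) * ((d i n : K) * u i n) := by
      push_cast
      ring
    rw [h1]
    refine IsIntegral.mul ?_ (hd2 i n)
    exact isIntegral_natCast _
  · beta_reduce
    rw [NumberField.house_nat_mul, sq]
    refine mul_le_mul ?_ ?_ (NumberField.house_nonneg _)
      (Finset.prod_nonneg fun j _ => zero_le_one.trans (hH1 j n))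
    · rw [Nat.cast_prod]
      exact Finset.prod_le_prod (fun _ _ => Nat.cast_nonneg _) fun j _ => hd1 j n
    · refine (house_le_mulHeight₁ _).trans ?_
      rw [← Finset.mul_prod_erase Finset.univ _ (Finset.mem_univ i)]
      refine le_mul_of_one_le_right (zero_le_one.trans (hH1 i n)) ?_
      have : ∀ s : Finset ι, (1 : ℝ) ≤ ∏ j ∈ s, Height.mulHeight₁ (u j n) := by
        intro s
        induction s using Finset.induction_on with
        | empty => simp
        | insert j s hj ih =>
          rw [Finset.prod_insert hj]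
          exact one_le_mul_of_one_le_of_one_le (hH1 j n) ih
      exact this _
  · have h1 : ∏ i, Height.mulHeight₁ (u i n) = Real.exp (∑ i, Height.logHeight₁ (u i n)) := by
      rw [Real.exp_sum]
      refine Finset.prod_congr rfl fun i _ => ?_
      rw [Height.logHeight₁_eq_log_mulHeight₁, Real.exp_log (Height.mulHeight₁_pos _)]
    beta_reduce
    rw [h1, ← Real.exp_nat_mul]
    norm_num

/-- The set `S` misses at most `θ n + C` of the first `n` numbers. -/
def Thick (S : Set ℕ) (θ : ℝ) : Prop :=
  ∃ C : ℝ, 0 ≤ C ∧ ∀ (n : ℕ) (B : Finset ℕ), B ⊆ Finset.range n → (∀ b ∈ B, b ∉ S) →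
    (B.card : ℝ) ≤ θ * n + C

theorem house_finset_sum_le {ι : Type} [Fintype ι] (α : ι → K) {A : ℝ}
    (h : ∀ i, NumberField.house (α i) ≤ A) :
    NumberField.house (∑ i, α i) ≤ Fintype.card ι * A := by
  refine (NumberField.house_sum_le_sum_house _ _).trans ?_
  refine (Finset.sum_le_card_nsmul _ _ A fun i _ => h i).trans ?_
  rw [Finset.card_univ, nsmul_eq_mul]

/-- **The criterion.** -/
theorem crit (p : ℕ) [hp : Fact p.Prime] (hp3 : 3 ≤ p) (σ : K →+* PadicAlgCl p) {κ : ℕ}
    (hκ : 0 < κ) (n1 : ℕ) :
    ∃ Q : ℕ, 0 < Q ∧ ∃ η' : ℝ, 0 < η' ∧ ∃ θ : ℝ, 0 < θ ∧ ∀ S : Set ℕ, Thick S θ →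
      ∀ u : Fin Q → ℕ → K, (∀ i, ANice p σ κ n1 (u i)) →
      (∃ C : ℝ, ∀ i, ∀ n ∈ S, Height.logHeight₁ (u i n) ≤ η' * n + C) →
      ∃ a : Fin Q → Polynomial K, a ≠ 0 ∧
        ∀ n ∈ S, n1 ≤ n → ∑ i, (a i).eval (n : K) * u i n = 0 := by
  classical
  set d : ℕ := Module.finrank ℚ K with hd
  have hd0 : 0 < d := Module.finrank_pos
  have hdR : (0 : ℝ) < d := by exact_mod_cast hd0
  have hκR : (0 : ℝ) < κ := by exact_mod_cast hκ
  have hp2 : (2 : ℝ) ≤ p := by exact_mod_cast hp.out.two_le
  have hpR : (0 : ℝ) < p := by linarith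
  set L : ℝ := Real.log p with hL
  have hL0 : 0 < L := Real.log_pos (by linarith)
  set η : ℝ := L / (32 * d * κ) with hη
  have hη0 : 0 < η := by positivity
  obtain ⟨Λ, hΛ0, hΛ⟩ := weight_bound (P := (p : ℝ) ^ 2) (one_le_pow₀ (by linarith)) hη0
  have hΛR : (0 : ℝ) < Λ := by exact_mod_cast hΛ0
  obtain ⟨c, hc1, hsiegel⟩ := siegel K
  refine ⟨2 * Λ, by omega, η / (4 * Λ), by positivity, 1 / (16 * κ), by positivity,
    fun S hthick u hN hS => ?_⟩
  obtain ⟨C', hC'0, hC'⟩ := hthick
  obtain ⟨δ, B, hδ0, hint, hhouse, hB⟩ := slow_bound u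
  obtain ⟨C, hC1, hC⟩ : ∃ C : ℝ, 1 ≤ C ∧ ∀ n ∈ S, B n ≤ C * Real.exp (η * n) := by
    obtain ⟨C0, hC0⟩ := hS
    refine ⟨Real.exp (4 * Λ * |C0|), Real.one_le_exp (by positivity), fun n hn => ?_⟩
    rw [hB, ← Real.exp_add]
    apply Real.exp_le_exp.2
    have h1 : ∑ i, Height.logHeight₁ (u i n) ≤ ∑ _i : Fin (2 * Λ), (η / (4 * Λ) * n + |C0|) :=
      Finset.sum_le_sum fun i _ => (hC0 i n hn).trans (by linarith [le_abs_self C0])
    rw [Finset.sum_const, Finset.card_univ, Fintype.card_fin, nsmul_eq_mul] at h1
    push_cast at h1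
    have h2 : 2 * (Λ : ℝ) * (η / (4 * Λ) * n + |C0|) = η * n / 2 + 2 * Λ * |C0| := by
      field_simp
      ring
    rw [h2] at h1
    linarith
  have hC0 : 0 < C := by linarith
  have hc0 : 0 < c := by linarith
  -- the constants
  set C5 : ℝ := max 1 (1 / η) with hC5
  have hC51 : 1 ≤ C5 := le_max_left _ _
  have hn1 : ∀ n : ℕ, (n : ℝ) + 1 ≤ C5 * Real.exp (η * n) := by
    intro n
    have h1 : (n : ℝ) ≤ C5 * (η * n) := by
      have h2 : 1 / η ≤ C5 := le_max_right _ _
      have h3 : (0 : ℝ) ≤ η * n := by positivity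
      calc (n : ℝ) = 1 / η * (η * n) := by field_simp
        _ ≤ C5 * (η * n) := mul_le_mul_of_nonneg_right h2 h3
    calc (n : ℝ) + 1 ≤ C5 * (η * n) + C5 := by linarith
      _ = C5 * (η * n + 1) := by ring
      _ ≤ C5 * Real.exp (η * n) := mul_le_mul_of_nonneg_left (Real.add_one_le_exp _) (by linarith)
  set C3 : ℝ := c * C ^ 2 * (2 * Λ * C5) ^ 2 with hC3
  have hC30 : 0 < C3 := by positivity
  set C6 : ℝ := Real.exp (L * (n1 / (2 * κ) + 3 / 2 + 2 * C')) * C3 ^ d with hC6
  obtain ⟨M, hM0, hM⟩ : ∃ M : ℕ, 0 < M ∧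
      ∀ n : ℕ, M ≤ n → C6 < Real.exp (3 / 16 * (L / κ) * n) := by
    have h1 : Filter.Tendsto (fun n : ℕ => Real.exp (3 / 16 * (L / κ) * n)) Filter.atTop
        Filter.atTop := by
      refine Real.tendsto_exp_atTop.comp ?_
      exact Filter.Tendsto.const_mul_atTop (by positivity) tendsto_natCast_atTop_atTop
    obtain ⟨M, hM⟩ := Filter.eventually_atTop.1 (h1.eventually_gt_atTop C6)
    exact ⟨M + 1, Nat.succ_pos _, fun n hn => hM n (by omega)⟩
  set D : ℕ := M / Λ with hD
  have hΛD : Λ * D ≤ M := Nat.mul_div_le M Λ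
  have hΛD' : M < Λ * (D + 1) := by
    have := Nat.lt_mul_div_succ M hΛ0
    simpa [hD] using this
  set N' : ℕ := n1 + M with hN'
  -- Siegel's lemma
  let al : Fin (2 * Λ) → ℕ → NumberField.RingOfIntegers K := fun i n => ⟨(δ n : K) * u i n, hint n i⟩
  let W : Matrix (Fin M) (Fin (2 * Λ) × Fin (D + 1)) (NumberField.RingOfIntegers K) := fun k b =>
    if n1 + (k : ℕ) ∈ S then
    ((p ^ (2 * (b.2 : ℕ)) * (n1 + k).choose b.2 : ℕ) : NumberField.RingOfIntegers K) *
      al b.1 (n1 + k) else 0
  have hcardβ : Fintype.card (Fin (2 * Λ) × Fin (D + 1)) = 2 * Λ * (D + 1) := by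
    rw [Fintype.card_prod, Fintype.card_fin, Fintype.card_fin]
  have hA1 : 1 ≤ C * Real.exp (2 * η * N') := by
    refine one_le_mul_of_one_le_of_one_le hC1 (Real.one_le_exp (by positivity))
  have hWt : ∀ (n m : ℕ) (b : Fin (2 * Λ) × Fin (D + 1)), n ∈ S → n ≤ m → N' ≤ m →
      NumberField.house (((p ^ (2 * (b.2 : ℕ)) * n.choose b.2 : ℕ) : K) * ((δ n : K) * u b.1 n)) ≤
        C * Real.exp (2 * η * m) := by
    intro n m b hnS hnm hNm
    rw [NumberField.house_nat_mul]
    have h1 : ((p ^ (2 * (b.2 : ℕ)) * n.choose b.2 : ℕ) : ℝ) ≤ Real.exp (η * m) := by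
      push_cast
      rw [pow_mul]
      exact hΛ D m n b.2 (Nat.lt_succ_iff.1 b.2.2) (by omega) hnm
    have h2 : NumberField.house ((δ n : K) * u b.1 n) ≤ C * Real.exp (η * m) := by
      refine (hhouse n b.1).trans ((hC n hnS).trans ?_)
      apply mul_le_mul_of_nonneg_left (Real.exp_le_exp.2 _) hC0.le
      have : (n : ℝ) ≤ m := by exact_mod_cast hnm
      exact mul_le_mul_of_nonneg_left this hη0.le
    calc _ ≤ Real.exp (η * m) * (C * Real.exp (η * m)) :=
          mul_le_mul h1 h2 (NumberField.house_nonneg _) (by positivity)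
      _ = C * Real.exp (2 * η * m) := by
          rw [mul_left_comm, ← Real.exp_add]
          ring_nf
  obtain ⟨ξ, hξ0, hξ1, hξ2⟩ := hsiegel W (C * Real.exp (2 * η * N'))
    (by rw [Fintype.card_fin]; exact hM0)
    (by
      rw [hcardβ, Fintype.card_fin]
      nlinarith)
    hA1
    (by
      intro k b
      by_cases hk : n1 + (k : ℕ) ∈ S
      · have h1 : ((W k b : NumberField.RingOfIntegers K) : K) =
            ((p ^ (2 * (b.2 : ℕ)) * (n1 + k).choose b.2 : ℕ) : K) *
              ((δ (n1 + k) : K) * u b.1 (n1 + k)) := by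
          simp only [W, if_pos hk, map_mul, map_natCast]
          rfl
        rw [h1]
        exact hWt _ _ b hk (by have := k.2; omega) le_rfl
      · have h1 : ((W k b : NumberField.RingOfIntegers K) : K) = 0 := by
          simp only [W, if_neg hk, map_zero]
        have h2 : NumberField.house (0 : K) = 0 := by
          have := NumberField.house_intCast (K := K) 0
          simpa using this
        rw [h1, h2]
        linarith)
  rw [hcardβ] at hξ2
  -- the auxiliary sequence
  let V : ℕ → K := fun n => ∑ b : Fin (2 * Λ) × Fin (D + 1),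
    ((ξ b : NumberField.RingOfIntegers K) : K) *
      (((p ^ (2 * (b.2 : ℕ)) * n.choose b.2 : ℕ) : K) * u b.1 n)
  have hδV : ∀ n, (δ n : K) * V n = ∑ b : Fin (2 * Λ) × Fin (D + 1),
      ((ξ b : NumberField.RingOfIntegers K) : K) *
        (((p ^ (2 * (b.2 : ℕ)) * n.choose b.2 : ℕ) : K) * ((δ n : K) * u b.1 n)) := by
    intro n
    simp only [V]
    rw [Finset.mul_sum]
    refine Finset.sum_congr rfl fun b _ => ?_
    ring
  have hδVint : ∀ n, IsIntegral ℤ ((δ n : K) * V n) := by
    intro n
    rw [hδV]
    refine IsIntegral.sum _ fun b _ => ?_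
    exact (ξ b).isIntegral_coe.mul (IsIntegral.mul (isIntegral_natCast _) (hint n b.1))
  have hδVhouse : ∀ n ∈ S, N' ≤ n → NumberField.house ((δ n : K) * V n) ≤
      C3 * Real.exp (6 * η * n) := by
    intro n hnS hn
    rw [hδV]
    refine (house_finset_sum_le _ (A := c * ((2 * Λ * (D + 1) : ℕ) : ℝ) *
      (C * Real.exp (2 * η * N')) * (C * Real.exp (2 * η * n))) fun b => ?_).trans ?_
    · refine (NumberField.house_mul_le _ _).trans ?_
      exact mul_le_mul (hξ2 b) (hWt n n b hnS le_rfl hn) (NumberField.house_nonneg _)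
        (by positivity)
    · rw [hcardβ]
      have h1 : ((2 * Λ * (D + 1) : ℕ) : ℝ) ≤ 2 * Λ * C5 * Real.exp (η * n) := by
        push_cast
        have h2 : (D : ℝ) + 1 ≤ n + 1 := by
          have : D ≤ n := by
            have : D ≤ M := Nat.div_le_self M Λ
            omega
          have : (D : ℝ) ≤ n := by exact_mod_cast this
          linarith
        calc (2 * (Λ : ℝ) * (D + 1)) ≤ 2 * Λ * (C5 * Real.exp (η * n)) :=
              mul_le_mul_of_nonneg_left (h2.trans (hn1 n)) (by positivity)
          _ = _ := by ring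
      have h3 : Real.exp (2 * η * N') ≤ Real.exp (2 * η * n) := by
        apply Real.exp_le_exp.2
        have : (N' : ℝ) ≤ n := by exact_mod_cast hn
        exact mul_le_mul_of_nonneg_left this (by positivity)
      set q : ℝ := ((2 * Λ * (D + 1) : ℕ) : ℝ) with hq
      have hq0 : 0 ≤ q := Nat.cast_nonneg _
      have h4 : q * (c * q * (C * Real.exp (2 * η * N')) * (C * Real.exp (2 * η * n))) =
          (c * C ^ 2) * q ^ 2 * (Real.exp (2 * η * N') * Real.exp (2 * η * n)) := by ring
      rw [h4]
      have h5 : q ^ 2 ≤ (2 * Λ * C5) ^ 2 * Real.exp (2 * η * n) := by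
        calc q ^ 2 ≤ (2 * Λ * C5 * Real.exp (η * n)) ^ 2 := pow_le_pow_left₀ hq0 h1 2
          _ = (2 * Λ * C5) ^ 2 * (Real.exp (η * n)) ^ 2 := by ring
          _ = _ := by
              rw [← Real.exp_nat_mul]
              congr 2
              push_cast
              ring
      calc (c * C ^ 2) * q ^ 2 * (Real.exp (2 * η * N') * Real.exp (2 * η * n))
          ≤ (c * C ^ 2) * ((2 * Λ * C5) ^ 2 * Real.exp (2 * η * n)) *
            (Real.exp (2 * η * n) * Real.exp (2 * η * n)) := by
            gcongr
        _ = C3 * (Real.exp (2 * η * n) * Real.exp (2 * η * n) * Real.exp (2 * η * n)) := by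
            rw [hC3]; ring
        _ = C3 * Real.exp (6 * η * n) := by
            rw [← Real.exp_add, ← Real.exp_add]
            congr 2
            ring
  -- vanishing
  have hV : ∀ n ∈ S, n1 ≤ n → V n = 0 := by
    intro n
    induction n using Nat.strong_induction_on with
    | _ n ih =>
      intro hnS hn
      by_cases hnN : n < N'
      · have h1 := congrFun hξ1 ⟨n - n1, by omega⟩
        rw [Pi.zero_apply, Matrix.mulVec, dotProduct] at h1
        have h3 : n1 + (n - n1) = n := by omega
        have h2 := congrArg (fun z : NumberField.RingOfIntegers K => (z : K)) h1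
        simp only [W, h3, if_pos hnS, map_sum, map_mul, map_natCast, map_zero] at h2
        have h4 : (δ n : K) * V n = 0 := by
          rw [hδV, ← h2]
          refine Finset.sum_congr rfl fun b _ => ?_
          have h5 : (algebraMap (NumberField.RingOfIntegers K) K) (al b.1 n) =
            (δ n : K) * u b.1 n := rfl
          rw [h5]
          ring
        exact (mul_eq_zero.1 h4).resolve_left (Nat.cast_ne_zero.2 (hδ0 n))
      · by_contra hne
        push Not at hnN
        set c0 : ℕ := n1 + (n - n1) % κ with hc0'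
        set t : ℕ := (n - n1) / κ with ht
        have hct : n = c0 + κ * t := by
          have := Nat.mod_add_div (n - n1) κ
          rw [hc0', ht]
          omega
        choose v hv1 hv2 using fun i => hN i c0 (by omega)
        let ξ' : Fin (2 * Λ) × Fin (D + 1) → unitBall (PadicAlgCl p) := fun b =>
          ⟨σ ((ξ b : NumberField.RingOfIntegers K) : K), norm_integral_le σ (ξ b).isIntegral_coe⟩
        let w : ℕ → unitBall (PadicAlgCl p) := ∑ b : Fin (2 * Λ) × Fin (D + 1),
          (fun _ => ξ' b) * ((fun s => ((p : unitBall (PadicAlgCl p)) ^ 2) ^ (b.2 : ℕ) *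
            (((c0 + κ * s).choose b.2 : ℕ) : unitBall (PadicAlgCl p))) * v b.1)
        have hw : Nice ((p : unitBall (PadicAlgCl p)) ^ 2) 0 w :=
          Nice.sum _ _ fun b _ => (nice_const _).mul' ((nice_choose _ _ _).mul' (hv1 b.1))
        have hwV : ∀ s, ((w s : unitBall (PadicAlgCl p)) : PadicAlgCl p) = σ (V (c0 + κ * s)) := by
          intro s
          simp only [w, V]
          rw [Finset.sum_apply, map_sum]
          push_cast
          refine Finset.sum_congr rfl fun b _ => ?_
          simp only [Pi.mul_apply]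
          push_cast
          rw [map_mul, map_mul, map_mul, map_pow, map_natCast, map_natCast, ← hv2, ← pow_mul]
        -- the exceptional indices
        let Bad : Finset ℕ := (Finset.range t).filter fun s => c0 + κ * s ∉ S
        have hBad : (Bad.card : ℝ) ≤ 1 / (16 * κ) * n + C' := by
          have hinj : Function.Injective fun s : ℕ => c0 + κ * s := by
            intro a b hab
            have : κ * a = κ * b := by
              simp only at hab
              omega
            exact Nat.eq_of_mul_eq_mul_left hκ this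
          have h1 := hC' n (Bad.image fun s => c0 + κ * s) (by
            intro m hm
            obtain ⟨s, hs, rfl⟩ := Finset.mem_image.1 hm
            rw [Finset.mem_range, hct]
            have := Finset.mem_range.1 (Finset.mem_filter.1 hs).1
            have h3 : κ * s < κ * t := Nat.mul_lt_mul_of_pos_left this hκ
            omega) (by
            intro m hm
            obtain ⟨s, hs, rfl⟩ := Finset.mem_image.1 hm
            exact (Finset.mem_filter.1 hs).2)
          rwa [Finset.card_image_of_injective _ hinj] at h1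
        have hw0 : ∀ s < t, s ∉ Bad → w s = 0 := by
          intro s hs hsB
          have hsS : c0 + κ * s ∈ S := by
            by_contra hcon
            exact hsB (Finset.mem_filter.2 ⟨Finset.mem_range.2 hs, hcon⟩)
          apply Subtype.ext
          rw [hwV, ih (c0 + κ * s) (by rw [hct]; nlinarith) hsS (by omega)]
          simp
        have h1 := norm_extrapolate p hp3 hw (Finset.filter_subset _ _) hw0
        rw [hwV, ← hct, ← hL] at h1
        have h2 : ‖σ ((δ n : K) * V n)‖ ≤
            Real.exp (-(L * ((t : ℝ) / 2 - 1 - 2 * Bad.card))) := by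
          rw [map_mul, norm_mul, map_natCast]
          calc _ ≤ 1 * ‖σ (V n)‖ := mul_le_mul_of_nonneg_right
                (IsUltrametricDist.norm_natCast_le_one (PadicAlgCl p) _) (norm_nonneg _)
            _ ≤ _ := by rwa [one_mul]
        have h3 := liouville σ (hδVint n) (mul_ne_zero (Nat.cast_ne_zero.2 (hδ0 n)) hne)
        have h4 := hδVhouse n hnS hnN
        have h5 : NumberField.house ((δ n : K) * V n) ^ d ≤
            C3 ^ d * Real.exp (3 / 16 * (L / κ) * n) := by
          refine (pow_le_pow_left₀ (NumberField.house_nonneg _) h4 d).trans ?_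
          rw [mul_pow, ← Real.exp_nat_mul]
          apply le_of_eq
          congr 2
          rw [hη]
          field_simp
          ring
        have h6 : Real.exp (-(L * ((t : ℝ) / 2 - 1 - 2 * Bad.card))) ≤
            Real.exp (L * (n1 / (2 * κ) + 3 / 2 + 2 * C')) * Real.exp (-(3 / 8 * (L / κ)) * n) := by
          rw [← Real.exp_add]
          apply Real.exp_le_exp.2
          have h7 : (n : ℝ) - n1 ≤ κ * (t + 1) := by
            have h8 : n - n1 ≤ κ * (t + 1) := by
              have h9 : n - n1 = κ * t + (n - n1) % κ := by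
                have := Nat.mod_add_div (n - n1) κ
                omega
              have h10 : (n - n1) % κ < κ := Nat.mod_lt _ hκ
              calc n - n1 ≤ κ * t + κ := by omega
                _ = κ * (t + 1) := by ring
            have h12 : (n : ℝ) - n1 = ((n - n1 : ℕ) : ℝ) := by
              rw [Nat.cast_sub hn]
            rw [h12]
            exact_mod_cast h8
          have h13 : ((n : ℝ) - n1) / κ ≤ t + 1 := by
            rw [div_le_iff₀ hκR]
            linarith [h7]
          have h14 : (3 / 8 : ℝ) * (n / κ) - n1 / (2 * κ) - 3 / 2 - 2 * C' ≤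
              (t : ℝ) / 2 - 1 - 2 * Bad.card := by
            have e1 : ((n : ℝ) - n1) / κ = n / κ - 2 * (n1 / (2 * κ)) := by
              field_simp
            have e2 : (1 : ℝ) / (16 * κ) * n = (1 / 16) * (n / κ) := by
              field_simp
            rw [e1] at h13
            rw [e2] at hBad
            linarith
          have h15 := mul_le_mul_of_nonneg_left h14 hL0.le
          have e3 : L * ((3 / 8 : ℝ) * (n / κ) - n1 / (2 * κ) - 3 / 2 - 2 * C') =
              3 / 8 * (L / κ) * n - L * (n1 / (2 * κ) + 3 / 2 + 2 * C') := by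
            field_simp
            ring
          rw [e3] at h15
          linarith
        have h16 : (1 : ℝ) ≤ C6 * Real.exp (-(3 / 16 * (L / κ) * n)) := by
          calc (1 : ℝ) ≤ _ := h3
            _ ≤ (Real.exp (L * (n1 / (2 * κ) + 3 / 2 + 2 * C')) *
                Real.exp (-(3 / 8 * (L / κ)) * n)) *
                (C3 ^ d * Real.exp (3 / 16 * (L / κ) * n)) :=
                mul_le_mul (h2.trans h6) h5 (pow_nonneg (NumberField.house_nonneg _) _)
                  (by positivity)
            _ = C6 * (Real.exp (-(3 / 8 * (L / κ)) * n) * Real.exp (3 / 16 * (L / κ) * n)) := by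
                rw [hC6]; ring
            _ = C6 * Real.exp (-(3 / 16 * (L / κ) * n)) := by
                rw [← Real.exp_add]
                congr 2
                ring
        have h17 := hM n (by omega)
        have h18 : C6 * Real.exp (-(3 / 16 * (L / κ) * n)) < 1 := by
          rw [Real.exp_neg, ← div_eq_mul_inv, div_lt_one (Real.exp_pos _)]
          exact h17
        linarith
  -- the relation
  refine ⟨fun i => ∑ l : Fin (D + 1), Polynomial.C (((ξ (i, l) : NumberField.RingOfIntegers K) : K) *
    ((p : K) ^ 2) ^ (l : ℕ)) * cp K l, ?_, fun n hnS hn => ?_⟩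
  · intro h0
    apply hξ0
    have hp0 : ((p : K) ^ 2) ≠ 0 := pow_ne_zero _ (Nat.cast_ne_zero.2 hp.out.ne_zero)
    funext ⟨i, l⟩
    have h1 := coeff_zero hp0 (fun l => ((ξ (i, l) : NumberField.RingOfIntegers K) : K)) (by
      intro n
      have h2 := congrArg (fun q : Polynomial K => q.eval (n : K)) (congrFun h0 i)
      simp only [Pi.zero_apply, Polynomial.eval_zero] at h2
      rw [Polynomial.eval_finsetSum] at h2
      rw [← h2]
      refine Finset.sum_congr rfl fun l _ => ?_
      rw [Polynomial.eval_mul, Polynomial.eval_C, cp_eval]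
      ring)
    have h3 := congrFun h1 l
    exact NumberField.RingOfIntegers.ext h3
  · rw [← hV n hnS hn]
    simp only [V]
    rw [Fintype.sum_prod_type]
    refine Finset.sum_congr rfl fun i _ => ?_
    rw [Polynomial.eval_finsetSum, Finset.sum_mul]
    refine Finset.sum_congr rfl fun l _ => ?_
    rw [Polynomial.eval_mul, Polynomial.eval_C, cp_eval]
    push_cast
    rw [pow_mul]
    ring

end Pool.Agent.K6.H8.KS
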