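import Pool.Agent.K6.H8.KS.Root

/-!
Points whose coordinates are algebraic over the polynomials in the index have logarithmic height.
-/

set_option autoImplicit false

namespace Pool.Agent.K6.H8.KS

open Finset

variable {K : Type} [Field K] [NumberField K]

theorem mulHeight_le_integral {ι : Type} [Finite ι] {x : ι → K} (hx : x ≠ 0)
    (hint : ∀ i, IsIntegral ℤ (x i)) {W : ℝ} (hW : ∀ i, NumberField.house (x i) ≤ W) :
    Height.mulHeight x ≤ W ^ Module.finrank ℚ K := by
  classical
  obtain ⟨i0, hi0⟩ := Function.ne_iff.1 hx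
  have : Nonempty ι := ⟨i0⟩
  have hW0 : 0 ≤ W := (NumberField.house_nonneg _).trans (hW i0)
  let x' : ι → NumberField.RingOfIntegers K := fun i => ⟨x i, hint i⟩
  have hx' : x' ≠ 0 := by
    intro h
    apply hi0
    have h1 := congrFun h i0
    exact congrArg (fun z : NumberField.RingOfIntegers K => (z : K)) h1
  rw [NumberField.mulHeight_eq hx]
  have h1 := NumberField.absNorm_mul_finprod_finitePlace_eq_one hx'
  have h2 : (∏ᶠ v : NumberField.FinitePlace K, ⨆ i, v (x i)) ≤ 1 := by
    set f : ℝ := ∏ᶠ v : NumberField.FinitePlace K, ⨆ i, v (x i) with hf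
    have h3 : ((Ideal.span (Set.range x')).absNorm : ℝ) * f = 1 := h1
    have h4 : (Ideal.span (Set.range x')).absNorm ≠ 0 := by
      intro h0
      rw [h0, Nat.cast_zero, zero_mul] at h3
      exact zero_ne_one h3
    have h5 : (1 : ℝ) ≤ (Ideal.span (Set.range x')).absNorm := by
      exact_mod_cast Nat.one_le_iff_ne_zero.2 h4
    by_contra hcon
    push Not at hcon
    nlinarith
  have h3 : (∏ v : NumberField.InfinitePlace K, (⨆ i, v (x i)) ^ v.mult) ≤
      W ^ Module.finrank ℚ K := by
    rw [← NumberField.InfinitePlace.sum_mult_eq, ← Finset.prod_pow_eq_pow_sum]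
    refine Finset.prod_le_prod (fun v _ => ?_) fun v _ => ?_
    · exact pow_nonneg (Real.iSup_nonneg fun i => apply_nonneg v _) _
    · refine pow_le_pow_left₀ (Real.iSup_nonneg fun i => apply_nonneg v _) ?_ _
      refine ciSup_le fun i => ?_
      rw [← NumberField.InfinitePlace.norm_embedding_eq]
      exact (NumberField.norm_embedding_le_house _ _).trans (hW i)
  have h4 : 0 ≤ ∏ v : NumberField.InfinitePlace K, (⨆ i, v (x i)) ^ v.mult :=
    Finset.prod_nonneg fun v _ => pow_nonneg (Real.iSup_nonneg fun i => apply_nonneg v _) _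
  calc _ ≤ (∏ v : NumberField.InfinitePlace K, (⨆ i, v (x i)) ^ v.mult) * 1 :=
        mul_le_mul_of_nonneg_left h2 h4
    _ ≤ _ := by rwa [mul_one]

/-- **The logarithmic bound.** -/
theorem log_bound {M : ℕ} {Y : ℕ → Fin (M + 1) → K} (hY0 : ∀ n, Y n ≠ 0) {Q n1 : ℕ}
    (hrel : ∀ i j : Fin (M + 1), ∃ a : ℕ → Polynomial K, (∃ l < Q, a l ≠ 0) ∧ ∀ n, n1 ≤ n →
        ∑ l ∈ Finset.range Q, (a l).eval (n : K) * (Y n i ^ (Q - 1 - l) * Y n j ^ l) = 0) :
    ∃ C : ℝ, ∀ n : ℕ, 2 ≤ n → Height.logHeight (Y n) ≤ C * Real.log n := by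
  classical
  choose a ha0 ha using hrel
  choose n2 g A hg hg1 hA using fun i j => quotient_bound (a i j) (ha0 i j)
    (fun n => Y n i) (fun n => Y n j) (ha i j)
  let G : ℕ → ℝ := fun n => ∏ i, ∏ j, g i j n
  have hgi : ∀ i n, 1 ≤ ∏ j, g i j n := by
    intro i n
    have : ∀ s : Finset (Fin (M + 1)), (1 : ℝ) ≤ ∏ j ∈ s, g i j n := by
      intro s
      induction s using Finset.induction_on with
      | empty => simp
      | insert j s hj ih =>
        rw [Finset.prod_insert hj]
        exact one_le_mul_of_one_le_of_one_le (hg1 i j n) ih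
    exact this _
  have hG : PG G := by
    refine PG.prod _ (fun i _ => PG.prod _ (fun j _ => hg i j) fun j _ n =>
      zero_le_one.trans (hg1 i j n)) fun i _ n => zero_le_one.trans (hgi i n)
  have hgG : ∀ i n, ∏ j, g i j n ≤ G n := by
    intro i n
    simp only [G]
    rw [← Finset.mul_prod_erase Finset.univ (fun i => ∏ j, g i j n) (Finset.mem_univ i)]
    refine le_mul_of_one_le_right (zero_le_one.trans (hgi i n)) ?_
    have : ∀ s : Finset (Fin (M + 1)), (1 : ℝ) ≤ ∏ i ∈ s, ∏ j, g i j n := by
      intro s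
      induction s using Finset.induction_on with
      | empty => simp
      | insert j s hj ih =>
        rw [Finset.prod_insert hj]
        exact one_le_mul_of_one_le_of_one_le (hgi j n) ih
    exact this _
  set n3 : ℕ := (Finset.univ.sup fun i => Finset.univ.sup fun j => n2 i j) with hn3
  have hn3' : ∀ i j, n2 i j ≤ n3 := by
    intro i j
    have h1 : n2 i j ≤ Finset.univ.sup fun j => n2 i j :=
      Finset.le_sup (f := fun j => n2 i j) (Finset.mem_univ j)
    exact h1.trans (Finset.le_sup (f := fun i => Finset.univ.sup fun j => n2 i j)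
      (Finset.mem_univ i))
  have hbound : ∀ n, n3 ≤ n → Height.mulHeight (Y n) ≤ G n ^ Module.finrank ℚ K := by
    intro n hn
    obtain ⟨i, hi⟩ := Function.ne_iff.1 (hY0 n)
    have hi' : Y n i ≠ 0 := hi
    have hAi := fun j => hA i j n ((hn3' i j).trans hn) hi'
    set c : K := (∏ j, A i j n) / Y n i with hc
    have hc0 : c ≠ 0 := div_ne_zero (Finset.prod_ne_zero_iff.2 fun j _ => (hAi j).1) hi'
    rw [← Height.mulHeight_smul_eq_mulHeight (Y n) hc0]
    have hcj : ∀ j, (c • Y n) j = (∏ l ∈ Finset.univ.erase j, A i l n) *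
        (A i j n * (Y n j / Y n i)) := by
      intro j
      rw [Pi.smul_apply, smul_eq_mul, hc, ← Finset.mul_prod_erase Finset.univ
        (fun j => A i j n) (Finset.mem_univ j)]
      ring
    refine (mulHeight_le_integral (W := ∏ j, g i j n) (smul_ne_zero hc0 (hY0 n)) (fun j => ?_)
      fun j => ?_).trans ?_
    · rw [hcj]
      exact (IsIntegral.prod _ fun l _ => (hAi l).2.1).mul (hAi j).2.2.2.1
    · rw [hcj]
      refine (NumberField.house_mul_le _ _).trans ?_
      rw [← Finset.mul_prod_erase Finset.univ (fun j => g i j n) (Finset.mem_univ j), mul_comm]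
      refine mul_le_mul (hAi j).2.2.2.2 ?_ (NumberField.house_nonneg _)
        (zero_le_one.trans (hg1 i j n))
      have hprod : ∀ s : Finset (Fin (M + 1)), NumberField.house (∏ l ∈ s, A i l n) ≤
          ∏ l ∈ s, g i l n := by
        intro s
        induction s using Finset.induction_on with
        | empty =>
          rw [Finset.prod_empty, Finset.prod_empty]
          have := NumberField.house_intCast (K := K) 1
          simp at this
          exact this.le
        | insert l s hl ih =>
          rw [Finset.prod_insert hl, Finset.prod_insert hl]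
          exact (NumberField.house_mul_le _ _).trans (mul_le_mul (hAi l).2.2.1 ih
            (NumberField.house_nonneg _) (zero_le_one.trans (hg1 i l n)))
      exact hprod _
    · exact pow_le_pow_left₀ (zero_le_one.trans (hgi i n)) (hgG i n) _
  obtain ⟨C, k, hC, hGC⟩ := hG
  set d := Module.finrank ℚ K with hd
  have hlog2 : 0 < Real.log 2 := Real.log_pos (by norm_num)
  set B : ℝ := ∑ n ∈ Finset.range n3, Height.logHeight (Y n) with hB
  have hB0 : 0 ≤ B := Finset.sum_nonneg fun n _ => Height.logHeight_nonneg _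
  have hlC : 0 ≤ Real.log C := Real.log_nonneg hC
  refine ⟨B / Real.log 2 + d * (Real.log C / Real.log 2 + k), fun n hn => ?_⟩
  have hn2 : (2 : ℝ) ≤ n := by exact_mod_cast hn
  have hlogn : Real.log 2 ≤ Real.log n := Real.log_le_log (by norm_num) hn2
  have hlogn0 : 0 < Real.log n := hlog2.trans_le hlogn
  rcases Nat.lt_or_ge n n3 with h | h
  · have h1 : Height.logHeight (Y n) ≤ B := Finset.single_le_sum
      (f := fun n => Height.logHeight (Y n)) (fun n _ => Height.logHeight_nonneg _)
      (Finset.mem_range.2 h)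
    have h2 : B ≤ B / Real.log 2 * Real.log n := by
      rw [div_mul_eq_mul_div, le_div_iff₀ hlog2]
      exact mul_le_mul_of_nonneg_left hlogn hB0
    have h3 : 0 ≤ (d : ℝ) * (Real.log C / Real.log 2 + k) * Real.log n := by positivity
    rw [add_mul]
    linarith
  · have h1 := hbound n h
    have h2 : G n ^ d ≤ (C * (n : ℝ) ^ k) ^ d :=
      pow_le_pow_left₀ (zero_le_one.trans ((hgi 0 n).trans (hgG 0 n))) (hGC n (by omega)) d
    have h3 := Real.log_le_log (Height.mulHeight_pos (Y n)) (h1.trans h2)
    rw [← Height.logHeight_eq_log_mulHeight, Real.log_pow,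
      Real.log_mul (by positivity) (by positivity), Real.log_pow] at h3
    have h4 : Real.log C ≤ Real.log C / Real.log 2 * Real.log n := by
      rw [div_mul_eq_mul_div, le_div_iff₀ hlog2]
      exact mul_le_mul_of_nonneg_left hlogn hlC
    have h5 : (d : ℝ) * (Real.log C + k * Real.log n) ≤
        d * ((Real.log C / Real.log 2 + k) * Real.log n) := by
      apply mul_le_mul_of_nonneg_left _ (Nat.cast_nonneg _)
      rw [add_mul]
      linarith
    have h6 : 0 ≤ B / Real.log 2 * Real.log n := by positivity
    rw [add_mul]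
    calc Height.logHeight (Y n) ≤ _ := h3
      _ ≤ _ := h5
      _ ≤ _ := by
        rw [← mul_assoc]
        linarith

end Pool.Agent.K6.H8.KS
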