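import Pool.Agent.K6.H8.KS.Spread
import Pool.Agent.K6.H8.KS.LogB

/-!
The dichotomy for the heights of the points of an orbit.
-/

set_option autoImplicit false

namespace Pool.Agent.K6.H8.KS

open MvPolynomial

theorem DZ.lt (n1 : ℕ) : DZ {n | n < n1} := by
  intro ε hε
  obtain ⟨n0, hn0⟩ := exists_nat_ge (n1 / ε)
  refine ⟨n0, fun n hn F _ hF => ?_⟩
  have h1 : F ⊆ Finset.range n1 := fun b hb => Finset.mem_range.2 (hF b hb)
  have h2 := Finset.card_le_card h1
  rw [Finset.card_range] at h2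
  have h3 : (F.card : ℝ) ≤ n1 := by exact_mod_cast h2
  have h4 : (n0 : ℝ) ≤ n := by exact_mod_cast hn
  have h5 : (n1 : ℝ) ≤ ε * n := by
    rw [div_le_iff₀ hε] at hn0
    nlinarith
  exact h3.trans h5

theorem exists_scalar {K : Type} [Field K] {M : ℕ} {u v : Fin (M + 1) → K} (hv : v ≠ 0)
    (h : ∀ a b, u a * v b = u b * v a) : ∃ c : K, ∀ a, u a = c * v a := by
  obtain ⟨b, hb⟩ := Function.ne_iff.1 hv
  have hb' : v b ≠ 0 := hb
  refine ⟨u b / v b, fun a => ?_⟩
  rw [div_mul_eq_mul_div, eq_div_iff hb']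
  exact h a b

theorem exists_ne_zero {K : Type} [Field K] {N M r : ℕ} {I : Ideal (MvPolynomial (Fin (N + 1)) K)}
    {G : Fin r → Fin (M + 1) → MvPolynomial (Fin (N + 1)) K}
    (hGc : ∀ y : Fin (N + 1) → AlgebraicClosure K, y ≠ 0 → (∀ H ∈ I, aeval y H = 0) →
      ∃ i a, aeval y (G i a) ≠ 0) {x : Fin (N + 1) → K} (hx0 : x ≠ 0)
    (hxI : ∀ H ∈ I, eval x H = 0) : ∃ i a, eval x (G i a) ≠ 0 := by
  have hev : ∀ P : MvPolynomial (Fin (N + 1)) K,
      aeval (fun j => algebraMap K (AlgebraicClosure K) (x j)) P =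
        algebraMap K (AlgebraicClosure K) (eval x P) := by
    intro P
    have h1 := aeval_algebraMap_apply (R := K) (B := AlgebraicClosure K) x P
    rw [aeval_eq_eval] at h1
    exact h1
  obtain ⟨i, a, hia⟩ := hGc (fun j => algebraMap K (AlgebraicClosure K) (x j)) (by
    obtain ⟨j, hj⟩ := Function.ne_iff.1 hx0
    intro h0
    apply hj
    have h1 := congrFun h0 j
    exact (map_eq_zero (algebraMap K (AlgebraicClosure K))).1 h1) (fun H hH => by
      rw [hev, hxI H hH, map_zero])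
  refine ⟨i, a, fun h0 => hia ?_⟩
  rw [hev, h0, map_zero]

/-- **The dichotomy.** -/
theorem dichotomy {K : Type} [Field K] [NumberField K] {N M : ℕ}
    {I : Ideal (MvPolynomial (Fin (N + 1)) K)} (hI : ∀ H ∈ I, ∀ e, homogeneousComponent e H ∈ I)
    {r : ℕ} {G : Fin r → Fin (N + 1) → MvPolynomial (Fin (N + 1)) K} {d : Fin r → ℕ}
    (hG : ∀ i a, (G i a).IsHomogeneous (d i))
    (hGc : ∀ y : Fin (N + 1) → AlgebraicClosure K, y ≠ 0 → (∀ H ∈ I, aeval y H = 0) →
      ∃ i a, aeval y (G i a) ≠ 0)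
    {s : ℕ} {φ : Fin s → Fin (M + 1) → MvPolynomial (Fin (N + 1)) K} {e : Fin s → ℕ}
    (hφ : ∀ i a, (φ i a).IsHomogeneous (e i))
    (hφc : ∀ y : Fin (N + 1) → AlgebraicClosure K, y ≠ 0 → (∀ H ∈ I, aeval y H = 0) →
      ∃ i a, aeval y (φ i a) ≠ 0)
    {x : ℕ → Fin (N + 1) → K} (hx0 : ∀ n, x n ≠ 0) (hxI : ∀ n, ∀ H ∈ I, eval (x n) H = 0)
    (horb : ∀ n i a b, eval (x n) (G i a) * x (n + 1) b = eval (x n) (G i b) * x (n + 1) a)
    {Y : ℕ → Fin (M + 1) → K} (hY0 : ∀ n, Y n ≠ 0)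
    (hY : ∀ n i a b, eval (x n) (φ i a) * Y n b = eval (x n) (φ i b) * Y n a)
    (hslow : ∀ c : ℝ, 0 < c → DZ {n | c * n ≤ Height.logHeight (Y n)}) :
    (∃ C : ℝ, ∀ n : ℕ, 2 ≤ n → Height.logHeight (Y n) ≤ C * Real.log n) ∧
      ∀ i : Fin 3 → Fin (M + 1), ∃ (e : ℕ) (H : MvPolynomial (Fin 3) K), H.IsHomogeneous e ∧
        H ≠ 0 ∧ ∀ n, eval (fun j => Y n (i j)) H = 0 := by
  classical
  obtain ⟨ε, θ, Q, n1, hε, hθ, hQ, hrel⟩ := relation hI hG hGc hφ hφc hx0 hxI horb hY0 hY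
  obtain ⟨n0, hn0⟩ := spread (x := x) hG (fun n => exists_ne_zero hGc (hx0 n) (hxI n))
    (fun n i => exists_scalar (hx0 (n + 1)) (horb n i))
  let S : Set ℕ := {n | ε * n ≤ Height.logHeight (Y n)}ᶜ
  have hSc : Sᶜ = {n | ε * n ≤ Height.logHeight (Y n)} := compl_compl _
  have hSD : DZ Sᶜ := by
    rw [hSc]
    exact hslow ε hε
  have hall : ∀ i j : Fin (M + 1), ∃ a : ℕ → Polynomial K, (∃ l < Q, a l ≠ 0) ∧ ∀ n, n0 ≤ n →
      ∑ l ∈ Finset.range Q, (a l).eval (n : K) * (Y n i ^ (Q - 1 - l) * Y n j ^ l) = 0 := by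
    intro i j
    obtain ⟨a, ha0, ha⟩ := hrel S (hSD.thick hθ) ⟨0, fun n hn => by
      rw [Set.mem_compl_iff, Set.mem_ofPred_eq, not_le] at hn
      linarith⟩ i j
    refine ⟨a, ha0, fun n hn => ?_⟩
    let P : MvPolynomial (Fin (M + 1)) (Polynomial K) := ∑ l ∈ Finset.range Q,
      C (a l) * (X i ^ (Q - 1 - l) * X j ^ l)
    have hPhom : P.IsHomogeneous (Q - 1) := by
      refine IsHomogeneous.sum _ _ _ fun l hl => ?_
      have h1 := (isHomogeneous_C (Fin (M + 1)) (a l)).mul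
        (((isHomogeneous_X (Polynomial K) i).pow (Q - 1 - l)).mul
          ((isHomogeneous_X (Polynomial K) j).pow l))
      have h2 : 0 + (1 * (Q - 1 - l) + 1 * l) = Q - 1 := by
        have := Finset.mem_range.1 hl
        omega
      rwa [h2] at h1
    have hPev : ∀ m, evt m (Y m) P =
        ∑ l ∈ Finset.range Q, (a l).eval (m : K) * (Y m i ^ (Q - 1 - l) * Y m j ^ l) := by
      intro m
      simp only [P, evt, map_sum, map_mul, map_pow, coe_eval₂Hom, eval₂_C, eval₂_X,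
        Polynomial.coe_evalRingHom]
    have hval : ∀ m k c, (∀ a, eval (x m) (φ k a) = c * Y m a) →
        evt m (x m) (pull (φ k) P) = c ^ (Q - 1) * evt m (Y m) P := by
      intro m k c hc
      rw [evt_pull, ← evt_scale hPhom]
      congr 2
      funext b
      exact hc b
    have hDZ : ∀ k, DZ {m | evt m (x m) (pull (φ k) P) ≠ 0} := by
      intro k
      refine (hSD.union (DZ.lt n1)).mono fun m hm => ?_
      obtain ⟨c, hc⟩ := exists_scalar (hY0 m) (hY m k)
      rw [Set.mem_ofPred_eq, hval m k c hc] at hm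
      have h1 := right_ne_zero_of_mul hm
      by_contra hcon
      rw [Set.mem_union, not_or, Set.notMem_compl_iff, Set.mem_ofPred_eq, not_lt] at hcon
      exact h1 (by rw [hPev]; exact ha m hcon.1 hcon.2)
    obtain ⟨k, b, hkb⟩ := exists_ne_zero hφc (hx0 n) (hxI n)
    obtain ⟨c, hc⟩ := exists_scalar (hY0 n) (hY n k)
    have hc0 : c ≠ 0 := by
      rintro rfl
      exact hkb (by rw [hc, zero_mul])
    have h1 := hn0 _ _ (pull_hom (hφ k) hPhom) (hDZ k) n hn
    rw [hval n k c hc] at h1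
    rw [← hPev]
    exact (mul_eq_zero.1 h1).resolve_left (pow_ne_zero _ hc0)
  refine ⟨log_bound hY0 hall, fun i => ?_⟩
  obtain ⟨e, H, hH, hH0, hHn⟩ := plane (S := Set.univ) Set.infinite_univ
    (fun n j => Y n (i j)) (Q := Q) (n1 := n0)
    (by
      obtain ⟨a, ha0, ha⟩ := hall (i 0) (i 1)
      exact ⟨a, ha0, fun n _ hn => ha n hn⟩)
    (by
      obtain ⟨a, ha0, ha⟩ := hall (i 0) (i 2)
      exact ⟨a, ha0, fun n _ hn => ha n hn⟩)
  exact ⟨e, H, hH, hH0, fun n => hHn n (Set.mem_univ n)⟩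

/-- three independent coordinates -/
theorem exists_coords {K : Type} [Field K] {N : ℕ} {I : Ideal (MvPolynomial (Fin (N + 1)) K)}
    (hI : I.IsPrime) (hdim : 3 ≤ Algebra.trdeg K (MvPolynomial (Fin (N + 1)) K ⧸ I)) :
    ∃ i : Fin 3 → Fin (N + 1), ∀ H : MvPolynomial (Fin 3) K, rename i H ∈ I → H = 0 := by
  classical
  let A := MvPolynomial (Fin (N + 1)) K ⧸ I
  let g : Fin (N + 1) → A := fun i => Ideal.Quotient.mkₐ K I (X i)
  have htop : Algebra.adjoin K (Set.range g) = ⊤ := by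
    have h1 : (Ideal.Quotient.mkₐ K I).range = ⊤ :=
      (AlgHom.range_eq_top _).2 (Ideal.Quotient.mkₐ_surjective K I)
    rw [← h1, ← Algebra.map_top, ← MvPolynomial.adjoin_range_X, AlgHom.map_adjoin, ← Set.range_comp]
    rfl
  have hdom : IsDomain A := Ideal.Quotient.isDomain I
  have hfaith : FaithfulSMul K A :=
    (faithfulSMul_iff_algebraMap_injective K A).2 (algebraMap K A).injective
  have halg : Algebra.IsAlgebraic (Algebra.adjoin K (Set.range g)) A := by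
    refine ⟨fun z => ?_⟩
    have hz : z ∈ Algebra.adjoin K (Set.range g) := by rw [htop]; exact Algebra.mem_top
    exact isAlgebraic_algebraMap (⟨z, hz⟩ : Algebra.adjoin K (Set.range g))
  obtain ⟨t, hts, ht⟩ := exists_isTranscendenceBasis_subset (R := K) (Set.range g)
  rw [← ht.cardinalMk_eq_trdeg] at hdim
  have hemb : Nonempty (Fin 3 ↪ t) := by
    rw [← Cardinal.le_def]
    simpa using hdim
  obtain ⟨f⟩ := hemb
  choose i hi using fun j : Fin 3 => hts (f j).2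
  refine ⟨i, fun H hH => ?_⟩
  have hind : AlgebraicIndependent K (fun j : Fin 3 => ((f j : t) : A)) :=
    ht.1.comp f f.injective
  rw [algebraicIndependent_iff] at hind
  apply hind
  have h1 : (fun j : Fin 3 => ((f j : t) : A)) = fun j => Ideal.Quotient.mkₐ K I (X (i j)) := by
    funext j
    exact (hi j).symm
  rw [h1]
  have h2 : (aeval (fun j => Ideal.Quotient.mkₐ K I (X (i j))) : MvPolynomial (Fin 3) K →ₐ[K] A) =
      (Ideal.Quotient.mkₐ K I).comp (rename i) := by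
    apply MvPolynomial.algHom_ext
    intro j
    simp
  rw [h2, AlgHom.comp_apply]
  exact Ideal.Quotient.eq_zero_iff_mem.2 hH

end Pool.Agent.K6.H8.KS
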