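import Pool.Agent.TH8.OR.C

/-!
Sequences of points which are algebraic over the field of rational functions of the index lie on a
curve.
-/

set_option autoImplicit false

namespace Pool.Agent.K6.H8.KS

open MvPolynomial Filter Pool.Agent.TH8.OR

theorem isAlgebraic_of_rel {K R : Type} [Field K] [Field R] [Algebra K R] {t β : R} {Q : ℕ}
    (a : ℕ → Polynomial K) (h0 : ∃ l < Q, Polynomial.aeval t (a l) ≠ 0)
    (h : ∑ l ∈ Finset.range Q, Polynomial.aeval t (a l) * β ^ l = 0) :
    IsAlgebraic (Algebra.adjoin K ({t} : Set R)) β := by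
  have hmem : ∀ q : Polynomial K, Polynomial.aeval t q ∈ Algebra.adjoin K ({t} : Set R) := by
    intro q
    rw [Algebra.adjoin_singleton_eq_range_aeval]
    exact ⟨q, rfl⟩
  refine ⟨∑ l ∈ Finset.range Q, Polynomial.monomial l
    (⟨Polynomial.aeval t (a l), hmem (a l)⟩ : Algebra.adjoin K ({t} : Set R)), ?_, ?_⟩
  · intro h1
    obtain ⟨l, hl, hne⟩ := h0
    have h2 := congrArg (fun q => Polynomial.coeff q l) h1
    simp only [Polynomial.finsetSum_coeff, Polynomial.coeff_monomial, Polynomial.coeff_zero] at h2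
    rw [Finset.sum_ite_eq' (Finset.range Q) l, if_pos (Finset.mem_range.2 hl)] at h2
    exact hne (congrArg Subtype.val h2)
  · rw [map_sum]
    simp only [Polynomial.aeval_monomial]
    exact h

theorem not_indep {K R : Type} [Field K] [Field R] [Algebra K R] {t β γ : R}
    (ht : Transcendental K t) (hβ : IsAlgebraic (Algebra.adjoin K ({t} : Set R)) β)
    (hγ : IsAlgebraic (Algebra.adjoin K ({t} : Set R)) γ) :
    ¬ AlgebraicIndependent K ![β, γ] := by
  intro hind
  have h1 : (AlgebraicIndependent.matroid K R).IsBasis {t} {t, β, γ} := by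
    rw [AlgebraicIndependent.matroid_isBasis_iff]
    refine ⟨?_, by simp, fun a ha => ?_⟩
    · have h2 : AlgebraicIndependent K (fun _ : Unit => t) :=
        algebraicIndependent_unique_type_iff.2 ht
      have h3 := h2.coe_range
      have h4 : Set.range (fun _ : Unit => t) = {t} := Set.range_const
      rw [h4] at h3
      exact h3
    · rcases ha with rfl | rfl | rfl
      · exact isAlgebraic_algebraMap (⟨a, Algebra.subset_adjoin rfl⟩ :
          Algebra.adjoin K ({a} : Set R))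
      · exact hβ
      · exact hγ
  have h2 : (AlgebraicIndependent.matroid K R).Indep (Set.range ![β, γ]) := hind.coe_range
  have h3 : Set.range ![β, γ] ⊆ {t, β, γ} := by
    rintro _ ⟨i, rfl⟩
    fin_cases i
    · simp
    · simp
  have h4 := h2.encard_le_eRk_of_subset h3
  rw [← h1.encard_eq_eRk, Set.encard_singleton] at h4
  have h5 : (Set.range ![β, γ]).encard = 2 := by
    rw [← Set.image_univ, hind.injective.injOn.encard_image, Set.encard_univ]
    simp
  rw [h5] at h4
  exact absurd h4 (by decide)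

/-- homogenisation -/
theorem exists_form {K R : Type} [Field K] [Field R] [Algebra K R] {ξ : Fin 3 → R} (h0 : ξ 0 ≠ 0)
    (h : ¬ AlgebraicIndependent K ![ξ 1 / ξ 0, ξ 2 / ξ 0]) :
    ∃ (e : ℕ) (H : MvPolynomial (Fin 3) K), H.IsHomogeneous e ∧ H ≠ 0 ∧ aeval ξ H = 0 := by
  classical
  rw [algebraicIndependent_iff] at h
  push Not at h
  obtain ⟨P, hP, hP0⟩ := h
  set e := P.totalDegree with he
  have hdeg : ∀ α ∈ P.support, α 0 + α 1 ≤ e := by
    intro α hα
    have h1 := le_totalDegree hα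
    rw [Finsupp.sum_fintype _ _ (by simp), Fin.sum_univ_two] at h1
    exact h1
  let H : MvPolynomial (Fin 3) K := ∑ α ∈ P.support,
    C (coeff α P) * (X 0 ^ (e - (α 0 + α 1)) * (X 1 ^ (α 0) * X 2 ^ (α 1)))
  refine ⟨e, H, ?_, ?_, ?_⟩
  · refine IsHomogeneous.sum _ _ _ fun α hα => ?_
    have h1 := (isHomogeneous_C (Fin 3) (coeff α P)).mul
      (((isHomogeneous_X K (0 : Fin 3)).pow (e - (α 0 + α 1))).mul
        (((isHomogeneous_X K (1 : Fin 3)).pow (α 0)).mul
          ((isHomogeneous_X K (2 : Fin 3)).pow (α 1))))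
    have h2 : 0 + (1 * (e - (α 0 + α 1)) + (1 * α 0 + 1 * α 1)) = e := by
      have := hdeg α hα
      omega
    rwa [h2] at h1
  · intro hH
    apply hP0
    have h1 : aeval ![(1 : MvPolynomial (Fin 2) K), X 0, X 1] H = P := by
      simp only [H, map_sum, map_mul, map_pow, aeval_C, aeval_X]
      conv_rhs => rw [P.as_sum]
      refine Finset.sum_congr rfl fun α _ => ?_
      rw [monomial_eq, Finsupp.prod_fintype _ _ (by simp), Fin.prod_univ_two]
      simp
    rw [← h1, hH, map_zero]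
  · have h1 : aeval ξ H = ξ 0 ^ e * aeval ![ξ 1 / ξ 0, ξ 2 / ξ 0] P := by
      conv_rhs => rw [P.as_sum]
      simp only [H, map_sum, map_mul, map_pow, aeval_C, aeval_X]
      rw [Finset.mul_sum]
      refine Finset.sum_congr rfl fun α hα => ?_
      rw [aeval_monomial, Finsupp.prod_fintype _ _ (by simp), Fin.prod_univ_two]
      have h2 := hdeg α hα
      have h3 : ξ 0 ^ e = ξ 0 ^ (e - (α 0 + α 1)) * (ξ 0 ^ (α 0) * ξ 0 ^ (α 1)) := by
        rw [← pow_add, ← pow_add]
        congr 1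
        omega
      rw [h3]
      simp only [Matrix.cons_val_zero, Matrix.cons_val_one]
      rw [div_pow, div_pow]
      field_simp
    rw [h1, hP, mul_zero]

/-- **The points lie on a plane curve.** -/
theorem plane {K : Type} [Field K] [CharZero K] {S : Set ℕ} (hS : S.Infinite) (y : ℕ → Fin 3 → K)
    {Q n1 : ℕ}
    (h1 : ∃ a : ℕ → Polynomial K, (∃ l < Q, a l ≠ 0) ∧ ∀ n ∈ S, n1 ≤ n →
      ∑ l ∈ Finset.range Q, (a l).eval (n : K) * (y n 0 ^ (Q - 1 - l) * y n 1 ^ l) = 0)
    (h2 : ∃ a : ℕ → Polynomial K, (∃ l < Q, a l ≠ 0) ∧ ∀ n ∈ S, n1 ≤ n →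
      ∑ l ∈ Finset.range Q, (a l).eval (n : K) * (y n 0 ^ (Q - 1 - l) * y n 2 ^ l) = 0) :
    ∃ (e : ℕ) (H : MvPolynomial (Fin 3) K), H.IsHomogeneous e ∧ H ≠ 0 ∧
      ∀ n ∈ S, eval (y n) H = 0 := by
  classical
  by_contra hcon
  push Not at hcon
  have : Infinite S := hS.to_subtype
  let g : ℕ → ℕ := fun k => (Nat.Subtype.orderIsoOfNat S k : ℕ)
  have hgS : ∀ k, g k ∈ S := fun k => (Nat.Subtype.orderIsoOfNat S k).2
  have hgsurj : ∀ n ∈ S, ∃ k, g k = n := by
    intro n hn
    refine ⟨(Nat.Subtype.orderIsoOfNat S).symm ⟨n, hn⟩, ?_⟩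
    simp only [g]
    rw [OrderIso.apply_symm_apply]
  have hgmono : StrictMono g := fun a b hab => (Nat.Subtype.orderIsoOfNat S).strictMono hab
  let Sm : Submonoid (ℕ → K) :=
    { carrier := {u | ∃ (e : ℕ) (H : MvPolynomial (Fin 3) K), H.IsHomogeneous e ∧ H ≠ 0 ∧
        u = fun k => eval (y (g k)) H}
      one_mem' := ⟨0, 1, isHomogeneous_one _ _, one_ne_zero, by funext k; simp⟩
      mul_mem' := by
        rintro _ _ ⟨e, H, hH, hH0, rfl⟩ ⟨e', H', hH', hH0', rfl⟩
        exact ⟨e + e', H * H', hH.mul hH', mul_ne_zero hH0 hH0', by funext k; simp⟩ }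
  obtain ⟨R, _, _, π, hπ1, hπ2⟩ := exists_R Sm (by
    rintro _ ⟨e, H, hH, hH0, rfl⟩ hev
    obtain ⟨k0, hk0⟩ := eventually_atTop.1 hev
    let L : ℕ → MvPolynomial (Fin 3) K := fun k =>
      if y (g k) 0 = 0 then X 0 else C (y (g k) 1) * X 0 - C (y (g k) 0) * X 1
    have hL1 : ∀ k, (L k).IsHomogeneous 1 := by
      intro k
      simp only [L]
      split_ifs
      · exact isHomogeneous_X K 0
      · have h := ((isHomogeneous_C (Fin 3) (y (g k) 1)).mul (isHomogeneous_X K (0 : Fin 3))).sub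
          ((isHomogeneous_C (Fin 3) (y (g k) 0)).mul (isHomogeneous_X K (1 : Fin 3)))
        rwa [zero_add] at h
    have hL2 : ∀ k, L k ≠ 0 := by
      intro k
      simp only [L]
      split_ifs with h
      · exact X_ne_zero _
      · intro h3
        have h4 := congrArg (eval (fun i : Fin 3 => if i = 1 then (1 : K) else 0)) h3
        simp at h4
        exact h h4
    have hL3 : ∀ k, eval (y (g k)) (L k) = 0 := by
      intro k
      simp only [L]
      split_ifs with h
      · rw [eval_X, h]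
      · simp only [map_sub, map_mul, eval_C, eval_X]
        ring
    obtain ⟨n, hn, hne⟩ := hcon _ (H * ∏ k ∈ Finset.range k0, L k)
      (hH.mul (IsHomogeneous.prod _ _ _ fun k _ => hL1 k))
      (mul_ne_zero hH0 (Finset.prod_ne_zero_iff.2 fun k _ => hL2 k))
    obtain ⟨k, rfl⟩ := hgsurj n hn
    apply hne
    rw [map_mul, map_prod]
    rcases Nat.lt_or_ge k k0 with h | h
    · rw [Finset.prod_eq_zero (Finset.mem_range.2 h) (hL3 k), mul_zero]
    · have h3 := hk0 k h
      simp only at h3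
      rw [h3, zero_mul])
  let ξ : Fin 3 → R := fun i => π fun k => y (g k) i
  let τ : ℕ → K := fun k => (g k : K)
  have hform : ∀ (e : ℕ) (H : MvPolynomial (Fin 3) K), H.IsHomogeneous e → H ≠ 0 →
      aeval ξ H ≠ 0 := by
    intro e H hH hH0
    have h3 := pi_mv (N := 2) π (fun k => y (g k)) H
    change aeval ξ H = _ at h3
    rw [h3]
    exact hπ2 _ ⟨e, H, hH, hH0, rfl⟩
  have hτ : Function.Injective τ := fun a b hab => hgmono.injective (Nat.cast_injective hab)
  have htr : ∀ q : Polynomial K, q ≠ 0 → Polynomial.aeval (π τ) q ≠ 0 := by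
    intro q hq
    rcases poly_ne_zero π hτ hq with h | ⟨u, hu, hu'⟩
    · exact h
    · exact absurd (hπ1 u hu) hu'
  have hξ0 : ξ 0 ≠ 0 := by
    have h3 := hform 1 (X 0) (isHomogeneous_X K 0) (X_ne_zero _)
    rwa [aeval_X] at h3
  have hrel : ∀ j : Fin 3, (∃ a : ℕ → Polynomial K, (∃ l < Q, a l ≠ 0) ∧ ∀ n ∈ S, n1 ≤ n →
      ∑ l ∈ Finset.range Q, (a l).eval (n : K) * (y n 0 ^ (Q - 1 - l) * y n j ^ l) = 0) →
      IsAlgebraic (Algebra.adjoin K ({π τ} : Set R)) (ξ j / ξ 0) := by
    rintro j ⟨a, ⟨l0, hl0, hne⟩, ha⟩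
    refine isAlgebraic_of_rel a ⟨l0, hl0, htr _ hne⟩ ?_
    have h3 : π (fun k => ∑ l ∈ Finset.range Q, (a l).eval (τ k) *
        (y (g k) 0 ^ (Q - 1 - l) * y (g k) j ^ l)) = 0 := by
      apply hπ1
      filter_upwards [eventually_ge_atTop n1] with k hk
      exact ha (g k) (hgS k) (hk.trans (hgmono.id_le k))
    have h4 : (fun k => ∑ l ∈ Finset.range Q, (a l).eval (τ k) *
        (y (g k) 0 ^ (Q - 1 - l) * y (g k) j ^ l)) = ∑ l ∈ Finset.range Q,
        (fun k => (a l).eval (τ k)) * ((fun k => y (g k) 0) ^ (Q - 1 - l) *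
          (fun k => y (g k) j) ^ l) := by
      funext k
      rw [Finset.sum_apply]
      rfl
    rw [h4, map_sum] at h3
    have h5 : ∑ l ∈ Finset.range Q, Polynomial.aeval (π τ) (a l) * (ξ j / ξ 0) ^ l =
        (ξ 0 ^ (Q - 1))⁻¹ * ∑ l ∈ Finset.range Q, π ((fun k => (a l).eval (τ k)) *
        ((fun k => y (g k) 0) ^ (Q - 1 - l) * (fun k => y (g k) j) ^ l)) := by
      rw [Finset.mul_sum]
      refine Finset.sum_congr rfl fun l hl => ?_
      have hl' := Finset.mem_range.1 hl
      rw [map_mul, map_mul, map_pow, map_pow, pi_poly]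
      have h6 : ξ 0 ^ (Q - 1) = ξ 0 ^ (Q - 1 - l) * ξ 0 ^ l := by
        rw [← pow_add]
        congr 1
        omega
      change _ = (ξ 0 ^ (Q - 1))⁻¹ * (π (fun k => (a l).eval (τ k)) * (ξ 0 ^ (Q - 1 - l) * ξ j ^ l))
      rw [h6, div_pow]
      field_simp
    rw [h5, h3, mul_zero]
  have hni := not_indep (transcendental_iff.2 fun q hq => by
    by_contra hq0
    exact htr q hq0 hq) (hrel 1 h1) (hrel 2 h2)
  obtain ⟨e, H, hH, hH0, hHξ⟩ := exists_form hξ0 hni
  exact hform e H hH hH0 hHξ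

end Pool.Agent.K6.H8.KS
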