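import Pool.Agent.K6.H8.KS.Bridge
import Pool.Agent.K6.H8.KS.Plane

/-!
The relations between the coordinates of the points of an orbit of small height.
-/

set_option autoImplicit false

namespace Pool.Agent.K6.H8.KS

open MvPolynomial Pool.Agent.R847.Gap Pool.Agent.H936R2

theorem ANice.mul {K : Type} [Field K] {p : ℕ} [Fact p.Prime] {σ : K →+* PadicAlgCl p}
    {κ n1 : ℕ} {u v : ℕ → K} (hu : ANice p σ κ n1 u) (hv : ANice p σ κ n1 v) :
    ANice p σ κ n1 (fun n => u n * v n) := by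
  intro c hc
  obtain ⟨a, ha, ha'⟩ := hu c hc
  obtain ⟨b, hb, hb'⟩ := hv c hc
  refine ⟨a * b, ha.mul' hb, fun t => ?_⟩
  rw [Pi.mul_apply]
  push_cast
  rw [ha', hb', map_mul]

theorem ANice.pow {K : Type} [Field K] {p : ℕ} [Fact p.Prime] {σ : K →+* PadicAlgCl p}
    {κ n1 : ℕ} {u : ℕ → K} (hu : ANice p σ κ n1 u) (l : ℕ) :
    ANice p σ κ n1 (fun n => u n ^ l) := by
  intro c hc
  obtain ⟨a, ha, ha'⟩ := hu c hc
  refine ⟨a ^ l, ha.pow l, fun t => ?_⟩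
  rw [Pi.pow_apply]
  push_cast
  rw [ha', map_pow]

/-- **The relations.** -/
theorem relation {K : Type} [Field K] [NumberField K] {N M : ℕ}
    {I : Ideal (MvPolynomial (Fin (N + 1)) K)} (hI : ∀ H ∈ I, ∀ e, homogeneousComponent e H ∈ I)
    {r : ℕ} {G : Fin r → Fin (N + 1) → MvPolynomial (Fin (N + 1)) K} {d : Fin r → ℕ}
    (hG : ∀ i a, (G i a).IsHomogeneous (d i))
    (hGc : ∀ y : Fin (N + 1) → AlgebraicClosure K, y ≠ 0 → (∀ H ∈ I, aeval y H = 0) →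
      ∃ i a, aeval y (G i a) ≠ 0)
    {s : ℕ} {φ : Fin s → Fin (M + 1) → MvPolynomial (Fin (N + 1)) K} {e : Fin s → ℕ}
    (hφ : ∀ i a, (φ i a).IsHomogeneous (e i))
    (hφc : ∀ y : Fin (N + 1) → AlgebraicClosure K, y ≠ 0 → (∀ H ∈ I, aeval y H = 0) →
      ∃ i a, aeval y (φ i a) ≠ 0)
    {x : ℕ → Fin (N + 1) → K} (hx0 : ∀ n, x n ≠ 0) (hxI : ∀ n, ∀ H ∈ I, eval (x n) H = 0)
    (horb : ∀ n i a b, eval (x n) (G i a) * x (n + 1) b = eval (x n) (G i b) * x (n + 1) a)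
    {Y : ℕ → Fin (M + 1) → K} (hY0 : ∀ n, Y n ≠ 0)
    (hY : ∀ n i a b, eval (x n) (φ i a) * Y n b = eval (x n) (φ i b) * Y n a) :
    ∃ (ε θ : ℝ) (Q n1 : ℕ), 0 < ε ∧ 0 < θ ∧ 0 < Q ∧ ∀ S : Set ℕ, Thick S θ →
      (∃ C : ℝ, ∀ n ∈ S, Height.logHeight (Y n) ≤ ε * n + C) → ∀ i j : Fin (M + 1),
      ∃ a : ℕ → Polynomial K, (∃ l < Q, a l ≠ 0) ∧ ∀ n ∈ S, n1 ≤ n →
        ∑ l ∈ Finset.range Q, (a l).eval (n : K) * (Y n i ^ (Q - 1 - l) * Y n j ^ l) = 0 := by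
  classical
  obtain ⟨p, hp, hp3, σ, κ, n1, b, hκ, hb, hnice⟩ := bridge hI hG hGc hφ hφc hx0 hxI horb hY0 hY
  obtain ⟨Q, hQ, η, hη, θ, hθ, hcrit⟩ := crit p hp3 σ hκ n1
  have hQR : (0 : ℝ) < Q := by exact_mod_cast hQ
  refine ⟨η / Q, θ, Q, n1, by positivity, hθ, hQ, fun S hS hh i j => ?_⟩
  obtain ⟨C, hC⟩ := hh
  have hw : ∀ a n, Height.logHeight₁ (Y n a / Y n (b n)) ≤ Height.logHeight (Y n) := by
    intro a n
    rw [Height.logHeight₁_div_eq_logHeight]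
    have h1 := Height.logHeight_comp_le ![a, b n] (Y n)
    have h2 : Y n ∘ ![a, b n] = ![Y n a, Y n (b n)] := by
      funext l
      fin_cases l <;> rfl
    rwa [h2] at h1
  obtain ⟨a, ha0, ha⟩ := hcrit S hS
    (fun l n => (Y n i / Y n (b n)) ^ (Q - 1 - (l : ℕ)) * (Y n j / Y n (b n)) ^ (l : ℕ))
    (fun l => ((hnice i).pow _).mul ((hnice j).pow _)) ⟨Q * |C|, fun l n hn => by
      refine (Height.logHeight₁_mul_le _ _).trans ?_
      rw [Height.logHeight₁_pow, Height.logHeight₁_pow]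
      have h1 := hw i n
      have h2 := hw j n
      have h3 := hC n hn
      have h4 : Height.logHeight (Y n) ≤ η / Q * n + |C| := h3.trans (by linarith [le_abs_self C])
      have h5 : (0 : ℝ) ≤ η / Q * n + |C| := by positivity
      have h6 : ((Q - 1 - (l : ℕ) : ℕ) : ℝ) + ((l : ℕ) : ℝ) ≤ Q := by
        have : Q - 1 - (l : ℕ) + (l : ℕ) ≤ Q := by have := l.2; omega
        exact_mod_cast this
      have h7 : ((Q - 1 - (l : ℕ) : ℕ) : ℝ) * Height.logHeight₁ (Y n i / Y n (b n)) ≤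
          ((Q - 1 - (l : ℕ) : ℕ) : ℝ) * (η / Q * n + |C|) :=
        mul_le_mul_of_nonneg_left (h1.trans h4) (Nat.cast_nonneg _)
      have h8 : ((l : ℕ) : ℝ) * Height.logHeight₁ (Y n j / Y n (b n)) ≤
          ((l : ℕ) : ℝ) * (η / Q * n + |C|) :=
        mul_le_mul_of_nonneg_left (h2.trans h4) (Nat.cast_nonneg _)
      have h9 : (((Q - 1 - (l : ℕ) : ℕ) : ℝ) + ((l : ℕ) : ℝ)) * (η / Q * n + |C|) ≤
          Q * (η / Q * n + |C|) := mul_le_mul_of_nonneg_right h6 h5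
      have h10 : (Q : ℝ) * (η / Q * n + |C|) = η * n + Q * |C| := by
        field_simp
      linarith⟩
  obtain ⟨l0, hl0⟩ := Function.ne_iff.1 ha0
  refine ⟨fun l => if h : l < Q then a ⟨l, h⟩ else 0, ⟨l0, l0.2, ?_⟩, fun n hn hn1 => ?_⟩
  · simp only [l0.2, dif_pos]
    exact hl0
  · have h1 := ha n hn hn1
    rw [Finset.sum_range]
    have h2 : ∑ l : Fin Q, (if h : (l : ℕ) < Q then a ⟨l, h⟩ else 0).eval (n : K) *
        (Y n i ^ (Q - 1 - (l : ℕ)) * Y n j ^ (l : ℕ)) = Y n (b n) ^ (Q - 1) *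
        ∑ l : Fin Q, (a l).eval (n : K) * ((Y n i / Y n (b n)) ^ (Q - 1 - (l : ℕ)) *
          (Y n j / Y n (b n)) ^ (l : ℕ)) := by
      rw [Finset.mul_sum]
      refine Finset.sum_congr rfl fun l _ => ?_
      rw [dif_pos l.2]
      have h3 : Y n (b n) ^ (Q - 1) = Y n (b n) ^ (Q - 1 - (l : ℕ)) * Y n (b n) ^ (l : ℕ) := by
        rw [← pow_add]
        congr 1
        have := l.2
        omega
      have h4 := hb n
      rw [h3, div_pow, div_pow]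
      field_simp
    rw [h2, h1, mul_zero]

end Pool.Agent.K6.H8.KS
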