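import Pool.Agent.K6.H8.KS.Sizes

/-!
Heights of the solutions of polynomial equations whose coefficients are polynomials in the index.
-/

set_option autoImplicit false

namespace Pool.Agent.K6.H8.KS

open Finset

variable {K : Type} [Field K] [NumberField K]

theorem house_le_of_embeddings {z : K} {W : ℝ} (h : ∀ φ : K →+* ℂ, ‖φ z‖ ≤ W) :
    NumberField.house z ≤ W := by
  classical
  rw [NumberField.house_eq_sup']
  obtain ⟨φ, -, hφ⟩ := Finset.exists_mem_eq_sup' (Finset.univ_nonempty (α := K →+* ℂ))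
    (fun φ : K →+* ℂ ↦ ‖φ z‖₊)
  rw [hφ, coe_nnnorm]
  exact h φ

theorem root_house {q : ℕ} (hq : 0 < q) (c : ℕ → K) (z : K)
    (h : z ^ q + ∑ l ∈ Finset.range q, c l * z ^ l = 0) {W : ℝ}
    (hW : ∀ l < q, NumberField.house (c l) ≤ W) (hW1 : 1 ≤ W) : NumberField.house z ≤ q * W := by
  have hq1 : (1 : ℝ) ≤ q := by exact_mod_cast hq
  refine house_le_of_embeddings fun φ => ?_
  have h1 := congrArg φ h
  rw [map_add, map_pow, map_sum, map_zero] at h1
  have h2 : ‖φ z‖ ^ q ≤ ∑ l ∈ Finset.range q, W * ‖φ z‖ ^ l := by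
    rw [← norm_pow, eq_neg_of_add_eq_zero_left h1, norm_neg]
    refine (norm_sum_le _ _).trans (Finset.sum_le_sum fun l hl => ?_)
    rw [map_mul, map_pow, norm_mul, norm_pow]
    exact mul_le_mul_of_nonneg_right
      ((NumberField.norm_embedding_le_house _ φ).trans (hW l (Finset.mem_range.1 hl)))
      (by positivity)
  by_cases h3 : ‖φ z‖ ≤ 1
  · refine h3.trans ?_
    nlinarith
  · push Not at h3
    have h4 : ∑ l ∈ Finset.range q, W * ‖φ z‖ ^ l ≤ ∑ _l ∈ Finset.range q, W * ‖φ z‖ ^ (q - 1) :=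
      Finset.sum_le_sum fun l hl => mul_le_mul_of_nonneg_left
        (pow_le_pow_right₀ h3.le (by have := Finset.mem_range.1 hl; omega)) (by positivity)
    rw [Finset.sum_const, Finset.card_range, nsmul_eq_mul] at h4
    have h5 : ‖φ z‖ ^ q = ‖φ z‖ * ‖φ z‖ ^ (q - 1) := by
      rw [← pow_succ']
      congr 1
      omega
    have h6 : ‖φ z‖ * ‖φ z‖ ^ (q - 1) ≤ (q * W) * ‖φ z‖ ^ (q - 1) := by
      rw [← h5, mul_assoc]
      exact h2.trans h4
    exact le_of_mul_le_mul_right h6 (by positivity)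

omit [NumberField K] in
theorem root_integral {q : ℕ} (c : ℕ → K) (z : K) (hc : ∀ l < q, IsIntegral ℤ (c l))
    (h : z ^ q + ∑ l ∈ Finset.range q, c l * z ^ l = 0) : IsIntegral ℤ z := by
  classical
  let c' : ℕ → NumberField.RingOfIntegers K := fun l => if hl : l < q then ⟨c l, hc l hl⟩ else 0
  have h1 : IsIntegral (NumberField.RingOfIntegers K) z := by
    refine ⟨Polynomial.X ^ q + ∑ l ∈ Finset.range q, Polynomial.monomial l (c' l), ?_, ?_⟩
    · refine Polynomial.monic_X_pow_add ?_
      rw [← Polynomial.mem_degreeLT]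
      refine Submodule.sum_mem _ fun l hl => ?_
      rw [Polynomial.mem_degreeLT]
      exact (Polynomial.degree_monomial_le _ _).trans_lt
        (WithBot.coe_lt_coe.2 (Finset.mem_range.1 hl))
    · rw [← Polynomial.aeval_def, map_add, map_pow, Polynomial.aeval_X, map_sum, ← h]
      congr 1
      refine Finset.sum_congr rfl fun l hl => ?_
      rw [Polynomial.aeval_monomial]
      congr 1
      have h2 : c' l = ⟨c l, hc l (Finset.mem_range.1 hl)⟩ := dif_pos (Finset.mem_range.1 hl)
      rw [h2]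
      rfl
  exact isIntegral_trans z h1

theorem exists_multiple {Q : ℕ} (a : ℕ → Polynomial K) :
    ∃ m : ℕ, m ≠ 0 ∧ ∀ l < Q, ∀ n : ℕ, IsIntegral ℤ ((m : K) * (a l).eval (n : K)) := by
  classical
  choose N hN0 _ hN using fun l k => NumberField.exists_nat_le_mulHeight₁ ((a l).coeff k)
  let T : Finset (ℕ × ℕ) := (Finset.range Q).biUnion fun l => (a l).support.image fun k => (l, k)
  refine ⟨∏ w ∈ T, N w.1 w.2, Finset.prod_ne_zero_iff.2 fun w _ => hN0 _ _, fun l hl n => ?_⟩
  rw [Polynomial.eval_eq_sum, Polynomial.sum, Finset.mul_sum]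
  refine IsIntegral.sum _ fun k hk => ?_
  have hT : (l, k) ∈ T := by
    rw [Finset.mem_biUnion]
    exact ⟨l, Finset.mem_range.2 hl, Finset.mem_image.2 ⟨k, hk, rfl⟩⟩
  rw [← Finset.mul_prod_erase T _ hT]
  have h1 : ((N l k * ∏ w ∈ T.erase (l, k), N w.1 w.2 : ℕ) : K) * ((a l).coeff k * (n : K) ^ k) =
      ((∏ w ∈ T.erase (l, k), N w.1 w.2 : ℕ) : K) * (((N l k : K) * (a l).coeff k) *
        ((n ^ k : ℕ) : K)) := by
    push_cast
    ring
  rw [h1]
  exact IsIntegral.mul (isIntegral_natCast _) ((hN l k).mul (isIntegral_natCast _))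

/-- polynomial growth -/
def PG (g : ℕ → ℝ) : Prop := ∃ (C : ℝ) (k : ℕ), 1 ≤ C ∧ ∀ n : ℕ, 1 ≤ n → g n ≤ C * (n : ℝ) ^ k

theorem poly_house (q : Polynomial K) : PG fun n => NumberField.house (q.eval (n : K)) := by
  refine ⟨(∑ k ∈ q.support, NumberField.house (q.coeff k)) + 1, q.natDegree, ?_, fun n hn => ?_⟩
  · have : 0 ≤ ∑ k ∈ q.support, NumberField.house (q.coeff k) :=
      Finset.sum_nonneg fun _ _ => NumberField.house_nonneg _
    linarith
  · have hn' : (1 : ℝ) ≤ n := by exact_mod_cast hn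
    beta_reduce
    rw [Polynomial.eval_eq_sum, Polynomial.sum]
    refine (NumberField.house_sum_le_sum_house _ _).trans ?_
    have h1 : ∀ k ∈ q.support, NumberField.house (q.coeff k * (n : K) ^ k) ≤
        NumberField.house (q.coeff k) * (n : ℝ) ^ q.natDegree := by
      intro k hk
      have h2 : q.coeff k * (n : K) ^ k = ((n ^ k : ℕ) : K) * q.coeff k := by
        push_cast
        ring
      rw [h2, NumberField.house_nat_mul, mul_comm]
      push_cast
      exact mul_le_mul_of_nonneg_left (pow_le_pow_right₀ hn'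
        (Polynomial.le_natDegree_of_mem_supp k hk)) (NumberField.house_nonneg _)
    refine (Finset.sum_le_sum h1).trans ?_
    rw [← Finset.sum_mul]
    have h3 : (0 : ℝ) ≤ (n : ℝ) ^ q.natDegree := by positivity
    nlinarith

theorem PG.mono {g h : ℕ → ℝ} (hg : PG g) (h1 : ∀ n, 1 ≤ n → h n ≤ g n) : PG h := by
  obtain ⟨C, k, hC, hg⟩ := hg
  exact ⟨C, k, hC, fun n hn => (h1 n hn).trans (hg n hn)⟩

theorem PG.mul {g h : ℕ → ℝ} (hg : PG g) (hh : PG h) (_ : ∀ n, 0 ≤ g n) (hh0 : ∀ n, 0 ≤ h n) :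
    PG fun n => g n * h n := by
  obtain ⟨C, k, hC, hg⟩ := hg
  obtain ⟨C', k', hC', hh⟩ := hh
  refine ⟨C * C', k + k', one_le_mul_of_one_le_of_one_le hC hC', fun n hn => ?_⟩
  calc g n * h n ≤ (C * (n : ℝ) ^ k) * (C' * (n : ℝ) ^ k') :=
        mul_le_mul (hg n hn) (hh n hn) (hh0 n) (by positivity)
    _ = _ := by ring

theorem PG.pow {g : ℕ → ℝ} (hg : PG g) (hg0 : ∀ n, 0 ≤ g n) (l : ℕ) : PG fun n => g n ^ l := by
  obtain ⟨C, k, hC, hg⟩ := hg
  refine ⟨C ^ l, k * l, one_le_pow₀ hC, fun n hn => ?_⟩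
  calc g n ^ l ≤ (C * (n : ℝ) ^ k) ^ l := pow_le_pow_left₀ (hg0 n) (hg n hn) l
    _ = _ := by rw [mul_pow, pow_mul]

theorem PG.add {g h : ℕ → ℝ} (hg : PG g) (hh : PG h) : PG fun n => g n + h n := by
  obtain ⟨C, k, hC, hg⟩ := hg
  obtain ⟨C', k', hC', hh⟩ := hh
  refine ⟨C + C', k + k', by linarith, fun n hn => ?_⟩
  have hn' : (1 : ℝ) ≤ n := by exact_mod_cast hn
  have h1 : (n : ℝ) ^ k ≤ (n : ℝ) ^ (k + k') := pow_le_pow_right₀ hn' (Nat.le_add_right _ _)
  have h2 : (n : ℝ) ^ k' ≤ (n : ℝ) ^ (k + k') := pow_le_pow_right₀ hn' (Nat.le_add_left _ _)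
  calc g n + h n ≤ C * (n : ℝ) ^ k + C' * (n : ℝ) ^ k' := add_le_add (hg n hn) (hh n hn)
    _ ≤ C * (n : ℝ) ^ (k + k') + C' * (n : ℝ) ^ (k + k') := by gcongr
    _ = _ := by ring

theorem PG.const (c : ℝ) : PG fun _ => c :=
  ⟨max c 1, 0, le_max_right _ _, fun n _ => by simp⟩

theorem PG.sum {ι : Type} (t : Finset ι) {g : ι → ℕ → ℝ} (h : ∀ i ∈ t, PG (g i)) :
    PG fun n => ∑ i ∈ t, g i n := by
  classical
  induction t using Finset.induction_on with
  | empty =>
    refine (PG.const 0).mono fun n _ => ?_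
    simp
  | insert a t ha ih =>
    refine ((h a (Finset.mem_insert_self _ _)).add
      (ih fun i hi => h i (Finset.mem_insert_of_mem hi))).mono fun n _ => ?_
    rw [Finset.sum_insert ha]

theorem PG.prod {ι : Type} (t : Finset ι) {g : ι → ℕ → ℝ} (h : ∀ i ∈ t, PG (g i))
    (h0 : ∀ i ∈ t, ∀ n, 0 ≤ g i n) : PG fun n => ∏ i ∈ t, g i n := by
  classical
  induction t using Finset.induction_on with
  | empty =>
    refine (PG.const 1).mono fun n _ => ?_
    simp
  | insert a t ha ih =>
    refine ((h a (Finset.mem_insert_self _ _)).mul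
      (ih (fun i hi => h i (Finset.mem_insert_of_mem hi))
        fun i hi => h0 i (Finset.mem_insert_of_mem hi)) (h0 a (Finset.mem_insert_self _ _))
        fun n => Finset.prod_nonneg fun i hi => h0 i (Finset.mem_insert_of_mem hi) n).mono
          fun n _ => ?_
    rw [Finset.prod_insert ha]

/-- The quotient of two coordinates, if there is a relation between them. -/
theorem quotient_bound {Q n1 : ℕ} (a : ℕ → Polynomial K) (ha : ∃ l < Q, a l ≠ 0)
    (u v : ℕ → K)
    (h : ∀ n, n1 ≤ n → ∑ l ∈ Finset.range Q, (a l).eval (n : K) * (u n ^ (Q - 1 - l) * v n ^ l) = 0) :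
    ∃ (n2 : ℕ) (g : ℕ → ℝ) (A : ℕ → K), PG g ∧ (∀ n, 1 ≤ g n) ∧ ∀ n, n2 ≤ n → u n ≠ 0 →
      A n ≠ 0 ∧ IsIntegral ℤ (A n) ∧ NumberField.house (A n) ≤ g n ∧
      IsIntegral ℤ (A n * (v n / u n)) ∧ NumberField.house (A n * (v n / u n)) ≤ g n := by
  classical
  obtain ⟨m, hm0, hm⟩ := exists_multiple (Q := Q) a
  -- the leading coefficient
  obtain ⟨q, hqQ, hq0, hqmax⟩ : ∃ q < Q, a q ≠ 0 ∧ ∀ l, q < l → l < Q → a l = 0 := by
    have hne : ((Finset.range Q).filter fun l => a l ≠ 0).Nonempty := by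
      obtain ⟨l, hl, hl0⟩ := ha
      exact ⟨l, Finset.mem_filter.2 ⟨Finset.mem_range.2 hl, hl0⟩⟩
    obtain ⟨q, hq, hmax⟩ := Finset.exists_max_image _ (fun l => l) hne
    obtain ⟨h1, h2⟩ := Finset.mem_filter.1 hq
    refine ⟨q, Finset.mem_range.1 h1, h2, fun l hl hlQ => ?_⟩
    by_contra hne'
    have := hmax l (Finset.mem_filter.2 ⟨Finset.mem_range.2 hlQ, hne'⟩)
    omega
  -- it does not vanish from some time on
  obtain ⟨n3, hn3⟩ : ∃ n3 : ℕ, ∀ n, n3 ≤ n → (a q).eval (n : K) ≠ 0 := by
    have hfin : {n : ℕ | (a q).eval (n : K) = 0}.Finite := by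
      have h3 : ((a q).roots.toFinset : Set K).Finite := Finset.finite_toSet _
      refine (h3.preimage (f := fun n : ℕ => (n : K)) Nat.cast_injective.injOn).subset ?_
      intro n hn
      simp only [Set.mem_preimage, Finset.mem_coe, Multiset.mem_toFinset]
      exact (Polynomial.mem_roots hq0).2 hn
    obtain ⟨n3, hn3⟩ := hfin.bddAbove
    refine ⟨n3 + 1, fun n hn h0 => ?_⟩
    have := hn3 h0
    omega
  let A : ℕ → ℕ → K := fun l n => (m : K) * (a l).eval (n : K)
  have hmK : (m : K) ≠ 0 := Nat.cast_ne_zero.2 hm0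
  have hApg : ∀ l, PG fun n => NumberField.house (A l n) := by
    intro l
    refine ((PG.const (m : ℝ)).mul (poly_house (a l)) (fun _ => Nat.cast_nonneg _)
      fun _ => NumberField.house_nonneg _).mono fun n _ => ?_
    simp only [A]
    rw [NumberField.house_nat_mul]
  let W : ℕ → ℝ := fun n => (∑ l ∈ Finset.range (q + 1), NumberField.house (A l n)) + 1
  have hW1 : ∀ n, 1 ≤ W n := fun n => by
    have : 0 ≤ ∑ l ∈ Finset.range (q + 1), NumberField.house (A l n) :=
      Finset.sum_nonneg fun _ _ => NumberField.house_nonneg _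
    simp only [W]
    linarith
  have hWpg : PG W := (PG.sum _ fun l _ => hApg l).add (PG.const 1)
  have hAW : ∀ l, l ≤ q → ∀ n, NumberField.house (A l n) ≤ W n := by
    intro l hl n
    have h1 := Finset.single_le_sum (f := fun l => NumberField.house (A l n))
      (s := Finset.range (q + 1)) (fun _ _ => NumberField.house_nonneg _)
      (Finset.mem_range.2 (Nat.lt_succ_of_le hl))
    simp only [W]
    linarith
  let g : ℕ → ℝ := fun n => ((q : ℝ) + 1) * W n ^ (q + 1)
  have hWq : ∀ n, 1 ≤ W n ^ (q + 1) := fun n => one_le_pow₀ (hW1 n)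
  refine ⟨max n1 n3, g, A q, (PG.const _).mul (hWpg.pow (fun n => zero_le_one.trans (hW1 n)) _)
    (fun _ => by positivity) (fun n => zero_le_one.trans (hWq n)), fun n => ?_, fun n hn hu => ?_⟩
  · have h1 := hWq n
    have h2 : (0 : ℝ) ≤ q := Nat.cast_nonneg _
    simp only [g]
    nlinarith
  · have hn1 : n1 ≤ n := (le_max_left _ _).trans hn
    have hAq : A q n ≠ 0 := mul_ne_zero hmK (hn3 n ((le_max_right _ _).trans hn))
    have hrel : ∑ l ∈ Finset.range (q + 1), A l n * (v n / u n) ^ l = 0 := by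
      have h1 := h n hn1
      have h2 : ∑ l ∈ Finset.range Q, (a l).eval (n : K) * (u n ^ (Q - 1 - l) * v n ^ l) =
          ∑ l ∈ Finset.range (q + 1), (a l).eval (n : K) * (u n ^ (Q - 1 - l) * v n ^ l) := by
        symm
        apply Finset.sum_subset
        · intro l hl
          rw [Finset.mem_range] at hl ⊢
          omega
        · intro l hl hl'
          rw [Finset.mem_range] at hl hl'
          rw [hqmax l (by omega) hl, Polynomial.eval_zero, zero_mul]
      rw [h2] at h1
      have h3 : ∑ l ∈ Finset.range (q + 1), A l n * (v n / u n) ^ l = (m : K) *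
          (u n ^ (Q - 1))⁻¹ * ∑ l ∈ Finset.range (q + 1), (a l).eval (n : K) *
            (u n ^ (Q - 1 - l) * v n ^ l) := by
        rw [Finset.mul_sum]
        refine Finset.sum_congr rfl fun l hl => ?_
        rw [Finset.mem_range] at hl
        have h4 : u n ^ (Q - 1) = u n ^ (Q - 1 - l) * u n ^ l := by
          rw [← pow_add]
          congr 1
          omega
        simp only [A]
        rw [h4, div_pow]
        field_simp
      rw [h3, h1, mul_zero]
    have hq1 : 0 < q := by
      rcases Nat.eq_zero_or_pos q with hq | hq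
      · exfalso
        rw [hq, Finset.sum_range_one, pow_zero, mul_one, ← hq] at hrel
        exact hAq hrel
      · exact hq
    set β := v n / u n with hβ
    have hmonic : (A q n * β) ^ q + ∑ l ∈ Finset.range q, (A l n * A q n ^ (q - 1 - l)) *
        (A q n * β) ^ l = 0 := by
      have h5 : (A q n * β) ^ q + ∑ l ∈ Finset.range q, (A l n * A q n ^ (q - 1 - l)) *
          (A q n * β) ^ l = A q n ^ (q - 1) * ∑ l ∈ Finset.range (q + 1), A l n * β ^ l := by
        rw [Finset.sum_range_succ, mul_add, Finset.mul_sum, add_comm]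
        congr 1
        · refine Finset.sum_congr rfl fun l hl => ?_
          rw [Finset.mem_range] at hl
          have h6 : A q n ^ (q - 1) = A q n ^ (q - 1 - l) * A q n ^ l := by
            rw [← pow_add]
            congr 1
            omega
          rw [h6, mul_pow]
          ring
        · have h6 : A q n ^ q = A q n ^ (q - 1) * A q n := by
            rw [← pow_succ]
            congr 1
            omega
          rw [mul_pow, h6]
          ring
      rw [h5, hrel, mul_zero]
    have hint : ∀ l, l ≤ q → IsIntegral ℤ (A l n) := fun l hl => hm l (by omega) n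
    have hWle : ∀ j, j ≤ q + 1 → W n ^ j ≤ W n ^ (q + 1) := fun j hj =>
      pow_le_pow_right₀ (hW1 n) hj
    refine ⟨hAq, hint q le_rfl, ?_, ?_, ?_⟩
    · have h1 := hAW q le_rfl n
      have h2 := hWle 1 (by omega)
      rw [pow_one] at h2
      have h3 : (0 : ℝ) ≤ q := Nat.cast_nonneg _
      have h4 := hWq n
      simp only [g]
      nlinarith
    · exact root_integral _ _ (fun l hl => (hint l hl.le).mul ((hint q le_rfl).pow _)) hmonic
    · have h1 := root_house hq1 _ _ hmonic (W := W n ^ q) (fun l hl => by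
        refine (NumberField.house_mul_le _ _).trans ?_
        have h2 : W n ^ q = W n * W n ^ (q - 1) := by
          rw [← pow_succ']
          congr 1
          omega
        rw [h2]
        refine mul_le_mul (hAW l hl.le n) ?_ (NumberField.house_nonneg _)
          (zero_le_one.trans (hW1 n))
        refine (NumberField.house_pow_le _ _).trans ?_
        refine (pow_le_pow_left₀ (NumberField.house_nonneg _) (hAW q le_rfl n) _).trans ?_
        exact pow_le_pow_right₀ (hW1 n) (by omega)) (one_le_pow₀ (hW1 n))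
      refine h1.trans ?_
      have h3 : (0 : ℝ) ≤ q := Nat.cast_nonneg _
      have h4 := hWle q (by omega)
      have h5 : (0 : ℝ) ≤ W n ^ q := (zero_le_one.trans (one_le_pow₀ (hW1 n)))
      simp only [g]
      nlinarith

end Pool.Agent.K6.H8.KS
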