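import Pool.Agent.K6.H8.KS.Rel

/-!
Sets of density zero, and relations along an orbit which hold outside a set of density zero.
-/

set_option autoImplicit false

namespace Pool.Agent.K6.H8.KS

open MvPolynomial

/-- The set has density zero. -/
def DZ (B : Set ℕ) : Prop :=
  ∀ ε : ℝ, 0 < ε → ∃ n0 : ℕ, ∀ n, n0 ≤ n → ∀ F : Finset ℕ, F ⊆ Finset.range n → (∀ b ∈ F, b ∈ B) →
    (F.card : ℝ) ≤ ε * n

theorem DZ.mono {A B : Set ℕ} (hB : DZ B) (h : A ⊆ B) : DZ A := by
  intro ε hε
  obtain ⟨n0, hn0⟩ := hB ε hε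
  exact ⟨n0, fun n hn F hF hFA => hn0 n hn F hF fun b hb => h (hFA b hb)⟩

theorem DZ.union {A B : Set ℕ} (hA : DZ A) (hB : DZ B) : DZ (A ∪ B) := by
  classical
  intro ε hε
  obtain ⟨n0, hn0⟩ := hA (ε / 2) (by positivity)
  obtain ⟨n1, hn1⟩ := hB (ε / 2) (by positivity)
  refine ⟨max n0 n1, fun n hn F hF hFAB => ?_⟩
  have h1 := hn0 n ((le_max_left _ _).trans hn) (F.filter fun b => b ∈ A)
    ((Finset.filter_subset _ _).trans hF) fun b hb => (Finset.mem_filter.1 hb).2
  have h2 := hn1 n ((le_max_right _ _).trans hn) (F.filter fun b => ¬ b ∈ A)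
    ((Finset.filter_subset _ _).trans hF) fun b hb => by
      obtain ⟨h3, h4⟩ := Finset.mem_filter.1 hb
      exact (hFAB b h3).resolve_left h4
  have h3 := Finset.card_filter_add_card_filter_not (s := F) (fun b => b ∈ A)
  have h4 : (F.card : ℝ) = ((F.filter fun b => b ∈ A).card : ℝ) +
      ((F.filter fun b => ¬ b ∈ A).card : ℝ) := by
    rw [← Nat.cast_add, h3]
  rw [h4]
  linarith

theorem DZ.empty : DZ ∅ := by
  intro ε hε
  refine ⟨0, fun n _ F _ hF => ?_⟩
  have : F = ∅ := Finset.eq_empty_of_forall_notMem fun b hb => hF b hb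
  rw [this, Finset.card_empty, Nat.cast_zero]
  positivity

theorem DZ.biUnion {ι : Type} (t : Finset ι) (A : ι → Set ℕ) (h : ∀ i ∈ t, DZ (A i)) :
    DZ (⋃ i ∈ t, A i) := by
  classical
  induction t using Finset.induction_on with
  | empty => simpa using DZ.empty
  | insert a t _ ih =>
    rw [Finset.set_biUnion_insert]
    exact (h a (Finset.mem_insert_self _ _)).union
      (ih fun i hi => h i (Finset.mem_insert_of_mem hi))

theorem DZ.shift {B : Set ℕ} (hB : DZ B) : DZ {n | n + 1 ∈ B} := by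
  classical
  intro ε hε
  obtain ⟨n0, hn0⟩ := hB (ε / 2) (by positivity)
  refine ⟨max n0 1, fun n hn F hF hFB => ?_⟩
  have h1 := hn0 (n + 1) (by have := (le_max_left n0 1).trans hn; omega)
    (F.image fun b => b + 1) (by
      intro m hm
      obtain ⟨b, hb, rfl⟩ := Finset.mem_image.1 hm
      have := Finset.mem_range.1 (hF hb)
      exact Finset.mem_range.2 (by omega)) (by
      intro m hm
      obtain ⟨b, hb, rfl⟩ := Finset.mem_image.1 hm
      exact hFB b hb)
  rw [Finset.card_image_of_injective _ (add_left_injective 1)] at h1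
  refine h1.trans ?_
  have h2 : (1 : ℝ) ≤ n := by exact_mod_cast (le_max_right n0 1).trans hn
  push_cast
  nlinarith

theorem DZ.exists_notMem {B : Set ℕ} (hB : DZ B) : ∃ n, n ∉ B := by
  by_contra hcon
  push Not at hcon
  obtain ⟨n0, hn0⟩ := hB (1 / 2) (by norm_num)
  have h1 := hn0 (n0 + 1) (Nat.le_succ _) (Finset.range (n0 + 1)) le_rfl fun b _ => hcon b
  rw [Finset.card_range] at h1
  push_cast at h1
  have : (0 : ℝ) ≤ n0 := Nat.cast_nonneg _
  linarith

theorem DZ.thick {S : Set ℕ} (hS : DZ Sᶜ) {θ : ℝ} (hθ : 0 < θ) : Thick S θ := by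
  obtain ⟨n0, hn0⟩ := hS θ hθ
  refine ⟨n0, Nat.cast_nonneg _, fun n B hB hBS => ?_⟩
  rcases Nat.lt_or_ge n n0 with h | h
  · have h1 := Finset.card_le_card hB
    rw [Finset.card_range] at h1
    have h2 : (B.card : ℝ) ≤ n0 := by exact_mod_cast h1.trans h.le
    have h3 : 0 ≤ θ * n := by positivity
    linarith
  · have h1 := hn0 n h B hB fun b hb => hBS b hb
    have h3 : (0 : ℝ) ≤ n0 := Nat.cast_nonneg _
    linarith

section spread

variable {K : Type} [Field K] {N : ℕ}

/-- evaluation at the time `n` and at a point -/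
noncomputable def evt {N : ℕ} (n : ℕ) (y : Fin (N + 1) → K) :
    MvPolynomial (Fin (N + 1)) (Polynomial K) →+* K :=
  eval₂Hom (Polynomial.evalRingHom (n : K)) y

theorem evt_scale {P : MvPolynomial (Fin (N + 1)) (Polynomial K)} {e : ℕ}
    (hP : P.IsHomogeneous e) (n : ℕ) (y : Fin (N + 1) → K) (c : K) :
    evt n (fun a => c * y a) P = c ^ e * evt n y P := by
  have h1 : ∀ z : Fin (N + 1) → K, evt n z P =
      eval z (map (Polynomial.evalRingHom (n : K)) P) := by
    intro z
    rw [evt, coe_eval₂Hom, eval_map]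
  rw [h1, h1, eval_scale' (hP.map _)]

/-- the pull-back by a tuple of forms -/
noncomputable def pull {M : ℕ} (g : Fin (M + 1) → MvPolynomial (Fin (N + 1)) K) :
    MvPolynomial (Fin (M + 1)) (Polynomial K) →+* MvPolynomial (Fin (N + 1)) (Polynomial K) :=
  (aeval (fun a => map Polynomial.C (g a)) :
    MvPolynomial (Fin (M + 1)) (Polynomial K) →ₐ[Polynomial K]
      MvPolynomial (Fin (N + 1)) (Polynomial K)).toRingHom

theorem evt_pull {M : ℕ} (g : Fin (M + 1) → MvPolynomial (Fin (N + 1)) K) (n : ℕ)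
    (y : Fin (N + 1) → K) (P : MvPolynomial (Fin (M + 1)) (Polynomial K)) :
    evt n y (pull g P) = evt n (fun a => eval y (g a)) P := by
  have h1 : (evt n y).comp (pull g) = evt n (fun a => eval y (g a)) := by
    apply MvPolynomial.ringHom_ext
    · intro q
      simp [evt, pull]
    · intro a
      simp only [RingHom.comp_apply, evt, pull, AlgHom.toRingHom_eq_coe, RingHom.coe_coe, aeval_X,
        coe_eval₂Hom, eval₂_X, eval₂_map]
      rw [eval₂_eq_eval_map]
      congr 1
      have h2 : (Polynomial.evalRingHom (n : K)).comp Polynomial.C = RingHom.id K := by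
        ext c
        simp
      rw [h2, map_id]
  exact RingHom.congr_fun h1 P

theorem pull_hom {M : ℕ} {g : Fin (M + 1) → MvPolynomial (Fin (N + 1)) K} {d : ℕ}
    (hg : ∀ a, (g a).IsHomogeneous d) {P : MvPolynomial (Fin (M + 1)) (Polynomial K)} {e : ℕ}
    (hP : P.IsHomogeneous e) : (pull g P).IsHomogeneous (d * e) :=
  hP.aeval _ fun a => (hg a).map _

/-- the shift of the time -/
noncomputable def tsh : MvPolynomial (Fin (N + 1)) (Polynomial K) →+*
    MvPolynomial (Fin (N + 1)) (Polynomial K) :=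
  map (Polynomial.compRingHom (Polynomial.X + 1))

theorem evt_tsh (n : ℕ) (y : Fin (N + 1) → K) (P : MvPolynomial (Fin (N + 1)) (Polynomial K)) :
    evt n y (tsh P) = evt (n + 1) y P := by
  have h1 : (evt n y).comp tsh = evt (n + 1) y := by
    apply MvPolynomial.ringHom_ext
    · intro q
      simp [evt, tsh]
    · intro a
      simp [evt, tsh]
  exact RingHom.congr_fun h1 P

variable {r : ℕ} {G : Fin r → Fin (N + 1) → MvPolynomial (Fin (N + 1)) K} {d : Fin r → ℕ}
  {x : ℕ → Fin (N + 1) → K}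

/-- Relations which hold outside a set of density zero hold from some time on. -/
theorem spread (hG : ∀ i a, (G i a).IsHomogeneous (d i))
    (hcov : ∀ n, ∃ i a, eval (x n) (G i a) ≠ 0)
    (horb : ∀ n i, ∃ c : K, ∀ a, eval (x n) (G i a) = c * x (n + 1) a) :
    ∃ n0 : ℕ, ∀ (P : MvPolynomial (Fin (N + 1)) (Polynomial K)) (e : ℕ), P.IsHomogeneous e →
      DZ {n | evt n (x n) P ≠ 0} → ∀ n, n0 ≤ n → evt n (x n) P = 0 := by
  classical
  let T : Set (MvPolynomial (Fin (N + 1)) (Polynomial K)) :=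
    {P | ∃ e, P.IsHomogeneous e ∧ DZ {n | evt n (x n) P ≠ 0}}
  obtain ⟨t, htT, ht⟩ := (Submodule.fg_span_iff_fg_span_finset_subset T).1
    (IsNoetherian.noetherian (Ideal.span T))
  have hDZ : DZ (⋃ P ∈ t, {n | evt n (x n) P ≠ 0}) := by
    refine DZ.biUnion _ _ fun P hP => ?_
    obtain ⟨e, -, h⟩ := htT hP
    exact h
  obtain ⟨n0, hn0⟩ := hDZ.exists_notMem
  have hstart : ∀ P ∈ T, evt n0 (x n0) P = 0 := by
    intro P hP
    have h1 : P ∈ Submodule.span (MvPolynomial (Fin (N + 1)) (Polynomial K)) (t : Set _) := by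
      rw [← ht]
      exact Submodule.subset_span hP
    clear hP
    induction h1 using Submodule.span_induction with
    | mem Q hQ =>
      by_contra hne
      apply hn0
      rw [Set.mem_iUnion₂]
      exact ⟨Q, hQ, hne⟩
    | zero => rw [map_zero]
    | add A B _ _ hA hB => rw [map_add, hA, hB, add_zero]
    | smul c A _ hA => rw [smul_eq_mul, map_mul, hA, mul_zero]
  have hval : ∀ (P : MvPolynomial (Fin (N + 1)) (Polynomial K)) (e : ℕ), P.IsHomogeneous e →
      ∀ n i (c : K), (∀ a, eval (x n) (G i a) = c * x (n + 1) a) →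
      evt n (x n) (tsh (pull (G i) P)) = c ^ e * evt (n + 1) (x (n + 1)) P := by
    intro P e hP n i c hc
    rw [evt_tsh, evt_pull, ← evt_scale hP]
    congr 2
    funext a
    exact hc a
  have hT : ∀ P ∈ T, ∀ i, tsh (pull (G i) P) ∈ T := by
    rintro P ⟨e, hP, hPD⟩ i
    refine ⟨d i * e, (pull_hom (hG i) hP).map _, hPD.shift.mono ?_⟩
    intro n hn
    obtain ⟨c, hc⟩ := horb n i
    rw [Set.mem_ofPred_eq, hval P e hP n i c hc] at hn
    exact right_ne_zero_of_mul hn
  refine ⟨n0, ?_⟩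
  have hmain : ∀ n, n0 ≤ n → ∀ P ∈ T, evt n (x n) P = 0 := by
    intro n hn
    induction n, hn using Nat.le_induction with
    | base => exact hstart
    | succ n hn ih =>
      rintro P ⟨e, hP, hPD⟩
      obtain ⟨i, a, hia⟩ := hcov n
      obtain ⟨c, hc⟩ := horb n i
      have hc0 : c ≠ 0 := by
        rintro rfl
        exact hia (by rw [hc, zero_mul])
      have h1 := ih _ (hT P ⟨e, hP, hPD⟩ i)
      rw [hval P e hP n i c hc] at h1
      exact (mul_eq_zero.1 h1).resolve_left (pow_ne_zero _ hc0)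
  exact fun P e hP hPD n hn => hmain n hn P ⟨e, hP, hPD⟩

end spread

end Pool.Agent.K6.H8.KS
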